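import Pool.Agent.H.MP_d01728_an.A

set_option autoImplicit false
open MeasureTheory Set Filter Topology Metric Function Real

namespace Pool.Agent.H.MP_d01728_an

abbrev E := EuclideanSpace ℝ (Fin 3)

noncomputable def N (Ω : Set E) (v : E → ℝ) : ℝ := ∫ x in Ω, v x ^ 2

noncomputable def Q (Ω : Set E) (β : ℝ) (v : E → ℝ) : ℝ :=
  (∫ x in Ω, ‖fderiv ℝ v x‖ ^ 2) + β * ∫ x in frontier Ω, v x ^ 2 ∂μHE[2]

structure Dom (Ω : Set E) : Prop where
  o : IsOpen Ω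
  bd : Bornology.IsBounded Ω
  fin : μHE[2] (frontier Ω) < ⊤

lemma N0 (Ω : Set E) (v : E → ℝ) : 0 ≤ N Ω v := integral_nonneg fun _ => sq_nonneg _

lemma Q0 (Ω : Set E) {β : ℝ} (h : 0 ≤ β) (v : E → ℝ) : 0 ≤ Q Ω β v :=
  add_nonneg (integral_nonneg fun _ => sq_nonneg _)
    (mul_nonneg h (integral_nonneg fun _ => sq_nonneg _))

variable {Ω : Set E} {β : ℝ}

lemma Dom.i1 (D : Dom Ω) {f : E → ℝ} (c : Continuous f) : IntegrableOn f Ω :=
  intb D.bd D.bd.measure_lt_top c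

lemma Dom.i2 (D : Dom Ω) {f : E → ℝ} (c : Continuous f) : IntegrableOn f (frontier Ω) μHE[2] :=
  intb (D.bd.closure.subset frontier_subset_closure) D.fin c

lemma cG {v : E → ℝ} (hv : ContDiff ℝ 1 v) : Continuous fun x => ‖fderiv ℝ v x‖ ^ 2 :=
  (hv.continuous_fderiv one_ne_zero).norm.pow 2

lemma nsq (L : E →L[ℝ] ℝ) : ‖L‖ ^ 2 = L (EuclideanSpace.single 0 1) ^ 2 +
    L (EuclideanSpace.single 1 1) ^ 2 + L (EuclideanSpace.single 2 1) ^ 2 := by
  rw [(EuclideanSpace.basisFun (Fin 3) ℝ).norm_dual L, Fin.sum_univ_three]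
  simp

lemma c0 : ContDiff ℝ 1 fun p : E => p 0 := (EuclideanSpace.proj (𝕜 := ℝ) (0 : Fin 3)).contDiff

lemma d0 {f : ℝ → ℝ} {f' : ℝ} {p : E} (h : HasDerivAt f f' (p 0)) :
    HasFDerivAt (fun p : E => f (p 0)) (f' • EuclideanSpace.proj (𝕜 := ℝ) (0 : Fin 3)) p :=
  h.comp_hasFDerivAt p (EuclideanSpace.proj (𝕜 := ℝ) (0 : Fin 3)).hasFDerivAt

noncomputable def cm (θ : ℝ → ℝ) (u : E → ℝ) (p : E) : ℝ := cos (θ (p 0)) * u p
noncomputable def sm (θ : ℝ → ℝ) (u : E → ℝ) (p : E) : ℝ := sin (θ (p 0)) * u p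

lemma cm_c {θ : ℝ → ℝ} (hθ : ContDiff ℝ 1 θ) {u : E → ℝ} (hu : ContDiff ℝ 1 u) :
    ContDiff ℝ 1 (cm θ u) := (hθ.comp c0).cos.mul hu

lemma sm_c {θ : ℝ → ℝ} (hθ : ContDiff ℝ 1 θ) {u : E → ℝ} (hu : ContDiff ℝ 1 u) :
    ContDiff ℝ 1 (sm θ u) := (hθ.comp c0).sin.mul hu

lemma ims0 {θ : ℝ → ℝ} (hθ : ContDiff ℝ 1 θ) {u : E → ℝ} (hu : ContDiff ℝ 1 u) (p : E) :
    ‖fderiv ℝ (cm θ u) p‖ ^ 2 + ‖fderiv ℝ (sm θ u) p‖ ^ 2 =
      ‖fderiv ℝ u p‖ ^ 2 + deriv θ (p 0) ^ 2 * u p ^ 2 := by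
  have t := (hθ.differentiable one_ne_zero (p 0)).hasDerivAt
  have du := (hu.differentiable one_ne_zero p).hasFDerivAt
  have h1 : fderiv ℝ (cm θ u) p = _ := ((d0 t.cos).mul du).fderiv
  have h2 : fderiv ℝ (sm θ u) p = _ := ((d0 t.sin).mul du).fderiv
  rw [h1, h2, nsq, nsq, nsq]
  simp
  linear_combination (((fderiv ℝ u p) (EuclideanSpace.single 0 1)) ^ 2 +
    ((fderiv ℝ u p) (EuclideanSpace.single 1 1)) ^ 2 +
    ((fderiv ℝ u p) (EuclideanSpace.single 2 1)) ^ 2 + deriv θ (p 0) ^ 2 * u p ^ 2) *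
      cos_sq_add_sin_sq (θ (p 0))

lemma ims (D : Dom Ω) {θ : ℝ → ℝ} (hθ : ContDiff ℝ 1 θ) {u : E → ℝ} (hu : ContDiff ℝ 1 u) :
    N Ω (cm θ u) + N Ω (sm θ u) = N Ω u ∧ Q Ω β (cm θ u) + Q Ω β (sm θ u) =
      Q Ω β u + ∫ p in Ω, deriv θ (p 0) ^ 2 * u p ^ 2 := by
  have a := cm_c hθ hu
  have b := sm_c hθ hu
  have e : ∀ p, cm θ u p ^ 2 + sm θ u p ^ 2 = u p ^ 2 := fun p => by
    simp only [cm, sm]; linear_combination u p ^ 2 * cos_sq_add_sin_sq (θ (p 0))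
  have ca : Continuous fun p => cm θ u p ^ 2 := a.continuous.pow 2
  have cb : Continuous fun p => sm θ u p ^ 2 := b.continuous.pow 2
  have cd : Continuous fun p : E => deriv θ (p 0) ^ 2 * u p ^ 2 :=
    (((hθ.continuous_deriv le_rfl).comp c0.continuous).pow 2).mul (hu.continuous.pow 2)
  refine ⟨?_, ?_⟩
  · rw [N, N, ← integral_add (D.i1 ca) (D.i1 cb)]; simp only [e, N]
  · have h1 := integral_add (D.i2 ca) (D.i2 cb)
    have h2 := integral_add (D.i1 (cG a)) (D.i1 (cG b))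
    have h3 := integral_add (D.i1 (cG hu)) (D.i1 cd)
    simp only [e, ims0 hθ hu] at h1 h2
    simp only [Q]
    linear_combination -β * h1 - h2 + h3

noncomputable def th (x : ℝ) : ℝ := π / 2 * smoothTransition x

lemma th_c : ContDiff ℝ 1 th := contDiff_const.mul smoothTransition.contDiff

lemma th0 {x : ℝ} (h : x ≤ 0) : th x = 0 := by simp [th, smoothTransition.zero_of_nonpos h]

lemma th1 {x : ℝ} (h : 1 ≤ x) : th x = π / 2 := by simp [th, smoothTransition.one_of_one_le h]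

lemma thd {x : ℝ} (h : x ∉ Icc (0 : ℝ) 1) : deriv th x = 0 := by
  rcases not_and_or.1 h with h | h
  · rw [EventuallyEq.deriv_eq (f := fun _ => 0)
      ((eventually_lt_nhds (not_le.1 h)).mono fun y hy => th0 hy.le), deriv_const]
  · rw [EventuallyEq.deriv_eq (f := fun _ => π / 2)
      ((eventually_gt_nhds (not_le.1 h)).mono fun y hy => th1 hy.le), deriv_const]

lemma exK : ∃ K, ∀ x, deriv th x ^ 2 ≤ K := by
  obtain ⟨B, hB⟩ := isCompact_Icc.exists_bound_of_continuousOn (s := Icc (0 : ℝ) 1)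
    ((th_c.continuous_deriv le_rfl).pow 2).continuousOn
  refine ⟨max B 0, fun x => ?_⟩
  by_cases h : x ∈ Icc (0 : ℝ) 1
  · exact ((le_abs_self _).trans (hB x h)).trans (le_max_left _ _)
  · simp [thd h]

lemma tk_c (k c : ℝ) : ContDiff ℝ 1 fun x => th (k * x - c) := th_c.comp (by fun_prop)

lemma tk_d (k c x : ℝ) : HasDerivAt (fun x => th (k * x - c)) (deriv th (k * x - c) * k) x := by
  have := ((th_c.differentiable one_ne_zero (k * x - c)).hasDerivAt).comp x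
    (((hasDerivAt_id x).const_mul k).sub_const c)
  rwa [mul_one] at this

lemma three (D : Dom Ω) {K : ℝ} (hK : ∀ x, deriv th x ^ 2 ≤ K) {k : ℝ} (k0 : 0 < k) {u : E → ℝ}
    (hu : ContDiff ℝ 1 u) : ∃ wp wm w0 : E → ℝ, ContDiff ℝ 1 wp ∧ ContDiff ℝ 1 wm ∧
      ContDiff ℝ 1 w0 ∧ N Ω wp + N Ω wm + N Ω w0 = N Ω u ∧ (∀ p, k * p 0 ≤ 1 → wp p = 0) ∧
      (∀ p, -1 ≤ k * p 0 → wm p = 0) ∧ (∀ p, 2 ≤ k * |p 0| → w0 p = 0) ∧
      (∀ p, k * |p 0| ≤ 1 → w0 p = u p) ∧ ∀ z : E → ℝ, Continuous z →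
        (∀ p, k * |p 0| ≤ 2 → z p = u p) →
        Q Ω β wp + Q Ω β wm + Q Ω β w0 ≤ Q Ω β u + 2 * k ^ 2 * K * N Ω z := by
  have K0 : 0 ≤ K := (sq_nonneg _).trans (hK 0)
  have a := tk_c k 1
  have b := tk_c (-k) 1
  have r := cm_c a hu
  obtain ⟨e1, e2⟩ := ims (β := β) D a hu
  obtain ⟨e3, e4⟩ := ims (β := β) D b r
  refine ⟨_, _, _, sm_c a hu, sm_c b r, cm_c b r, by linarith, fun p h => ?_, fun p h => ?_,
    fun p h => ?_, fun p h => ?_, fun z cz hz => ?_⟩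
  · simp only [sm]; rw [th0 (by linarith)]; simp
  · simp only [sm]; rw [th0 (by linarith)]; simp
  · simp only [cm]
    rcases abs_cases (p 0) with ⟨h1, _⟩ | ⟨h1, _⟩ <;> rw [h1] at h
    · rw [th1 (x := k * p 0 - 1) (by linarith)]; simp
    · rw [th1 (by linarith)]; simp
  · simp only [cm]
    have := mul_le_mul_of_nonneg_left (le_abs_self (p 0)) k0.le
    have := mul_le_mul_of_nonneg_left (neg_le_abs (p 0)) k0.le
    rw [th0 (by linarith), th0 (by linarith)]; simp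
  · have key : ∀ (j : ℝ) (v : E → ℝ), |j| = k → ContDiff ℝ 1 v → (∀ p, v p ^ 2 ≤ u p ^ 2) →
        ∫ p in Ω, deriv (fun x => th (j * x - 1)) (p 0) ^ 2 * v p ^ 2 ≤ k ^ 2 * K * N Ω z := by
      intro j v hj hv h
      rw [N, ← integral_const_mul]
      refine integral_mono (D.i1 ?_) (D.i1 (by fun_prop)) fun p => ?_
      · exact ((((tk_c j 1).continuous_deriv le_rfl).comp c0.continuous).pow 2).mul
          (hv.continuous.pow 2)
      simp only [(tk_d j 1 _).deriv]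
      by_cases h2 : k * |p 0| ≤ 2
      · rw [hz p h2, mul_pow, mul_comm (k ^ 2), ← hj, sq_abs]
        exact mul_le_mul (mul_le_mul_of_nonneg_right (hK _) (sq_nonneg _)) (h p) (sq_nonneg _)
          (by positivity)
      · rw [thd, zero_mul, zero_pow two_ne_zero, zero_mul]
        · positivity
        · refine fun h3 => h2 ?_
          rw [← hj, ← abs_mul, abs_le]
          constructor <;> linarith [h3.1, h3.2]
    have k1 := key k u (abs_of_pos k0) hu fun _ => le_rfl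
    have k2 := key (-k) _ (by rw [abs_neg, abs_of_pos k0]) r fun p => by
      rw [cm, mul_pow]; exact mul_le_of_le_one_left (sq_nonneg _) (cos_sq_le_one _)
    linarith

lemma loc (D : Dom Ω) {K : ℝ} (hK : ∀ x, deriv th x ^ 2 ≤ K) {lam M η : ℝ} (η0 : 0 < η)
    (η1 : η ≤ 1) (M1 : 1 ≤ M) (hM : 512 * K * (1 + 32 * K) ≤ η * M)
    (low : ∀ v, ContDiff ℝ 1 v → lam * N Ω v ≤ Q Ω β v)
    (bar : ∀ v, ContDiff ℝ 1 v → (∀ p, 1 / 2 ≤ |p 0| → v p = 0) → (lam + M) * N Ω v ≤ Q Ω β v)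
    {u : E → ℝ} (hu : ContDiff ℝ 1 u) (u0 : 0 < N Ω u) (hq : Q Ω β u ≤ (lam + η / 4) * N Ω u) :
    ∃ w, ContDiff ℝ 1 w ∧ 0 < N Ω w ∧ Q Ω β w ≤ (lam + η) * N Ω w ∧
      ((∀ p, 8 * p 0 ≤ 1 → w p = 0) ∨ ∀ p, -1 ≤ 8 * p 0 → w p = 0) := by
  have K0 : 0 ≤ K := (sq_nonneg _).trans (hK 0)
  obtain ⟨a, b, c, ca, cb, cc, e1, -, -, z1, z2, q1⟩ := three (β := β) D hK (k := 4) four_pos hu
  obtain ⟨a', b', c', ca', cb', cc', e2, y1, y2, y3, -, q2⟩ :=
    three (β := β) D hK (k := 8) (by norm_num) hu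
  replace q1 := q1 u hu.continuous fun _ _ => rfl
  replace q2 := q2 c cc.continuous fun p h => z2 p (by linarith)
  have h1 : M * N Ω c ≤ (1 + 32 * K) * N Ω u := by
    have := low a ca
    have := low b cb
    have := bar c cc fun p h => z1 p (by linarith)
    have : lam * N Ω u = lam * (N Ω a + N Ω b + N Ω c) := by rw [e1]
    nlinarith
  have h2 : 128 * K * N Ω c ≤ η / 4 * N Ω u := by
    refine le_of_mul_le_mul_left ?_ (one_pos.trans_le M1)
    have := mul_le_mul_of_nonneg_left h1 K0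
    have := mul_le_mul_of_nonneg_right hM u0.le
    nlinarith
  have l1 := low a' ca'
  have l2 := low b' cb'
  have l3 := bar c' cc' fun p h => y3 p (by linarith)
  have n1 := N0 Ω a'
  have n2 := N0 Ω b'
  have n3 := N0 Ω c'
  have h3 : Q Ω β a' + Q Ω β b' + M * N Ω c' ≤ lam * (N Ω a' + N Ω b') + η / 2 * N Ω u := by
    have : lam * N Ω u = lam * (N Ω a' + N Ω b' + N Ω c') := by rw [e2]
    linarith
  have h4 : N Ω u ≤ 2 * (N Ω a' + N Ω b') := by nlinarith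
  have h5 : Q Ω β a' + Q Ω β b' ≤ (lam + η) * (N Ω a' + N Ω b') := by nlinarith
  by_contra hc
  have g1 : 0 < N Ω a' → (lam + η) * N Ω a' < Q Ω β a' := fun h =>
    not_le.1 fun h' => hc ⟨a', ca', h, h', .inl y1⟩
  have g2 : 0 < N Ω b' → (lam + η) * N Ω b' < Q Ω β b' := fun h =>
    not_le.1 fun h' => hc ⟨b', cb', h, h', .inr y2⟩
  rcases n1.eq_or_lt with h | h <;> rcases n2.eq_or_lt with h' | h'
  · linarith
  · have := g2 h'; rw [← h] at l1 h5; linarith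
  · have := g1 h; rw [← h'] at l2 h5; linarith
  · linarith [g1 h, g2 h']

lemma refl (R : E ≃ₗᵢ[ℝ] E) (hR : R ⁻¹' Ω = Ω) (w : E → ℝ) :
    N Ω (w ∘ R) = N Ω w ∧ Q Ω β (w ∘ R) = Q Ω β w := by
  have me : MeasurableEmbedding R := R.toHomeomorph.measurableEmbedding
  have h1 := fun g : E → ℝ => R.measurePreserving.setIntegral_preimage_emb me g Ω
  have h2 := fun g : E → ℝ => (R.toIsometryEquiv.measurePreserving_euclideanHausdorffMeasure
    2).setIntegral_preimage_emb me g (frontier Ω)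
  have h3 : R ⁻¹' frontier Ω = frontier Ω :=
    (R.toHomeomorph.preimage_frontier Ω).trans (congrArg frontier hR)
  simp only [LinearIsometryEquiv.coe_toIsometryEquiv, h3] at h2
  rw [hR] at h1
  refine ⟨h1 fun p => w p ^ 2, ?_⟩
  rw [Q, Q, ← h1 fun p => ‖fderiv ℝ w p‖ ^ 2, ← h2 fun p => w p ^ 2]
  congr 2
  ext p
  have := R.toContinuousLinearEquiv.comp_right_fderiv (f := w) (x := p)
  simp only [LinearIsometryEquiv.coe_toContinuousLinearEquiv] at this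
  rw [this]
  exact congrArg (· ^ 2) (ContinuousLinearMap.opNorm_comp_linearIsometryEquiv _ R)

lemma two (D : Dom Ω) {w w' : E → ℝ} (c : ContDiff ℝ 1 w) (c' : ContDiff ℝ 1 w')
    (z : ∀ p, 8 * p 0 ≤ 1 → w p = 0) (z' : ∀ p, -1 ≤ 8 * p 0 → w' p = 0) (a b : ℝ) :
    (∀ p, w p * w' p = 0) ∧
    N Ω (fun p => a * w p + b * w' p) = a ^ 2 * N Ω w + b ^ 2 * N Ω w' ∧
    Q Ω β (fun p => a * w p + b * w' p) = a ^ 2 * Q Ω β w + b ^ 2 * Q Ω β w' := by
  have e0 : ∀ p, w p * w' p = 0 := fun p => by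
    rcases le_total (p 0) 0 with h | h
    · rw [z p (by linarith), zero_mul]
    · rw [z' p (by linarith), mul_zero]
  have e : ∀ p, (a * w p + b * w' p) ^ 2 = a ^ 2 * w p ^ 2 + b ^ 2 * w' p ^ 2 := fun p => by
    linear_combination 2 * a * b * e0 p
  have e' : ∀ p, ‖fderiv ℝ (fun p => a * w p + b * w' p) p‖ ^ 2 =
      a ^ 2 * ‖fderiv ℝ w p‖ ^ 2 + b ^ 2 * ‖fderiv ℝ w' p‖ ^ 2 := fun p => by
    have h : fderiv ℝ (fun p => a * w p + b * w' p) p = _ :=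
      (((c.differentiable one_ne_zero p).hasFDerivAt.const_mul a).add
        ((c'.differentiable one_ne_zero p).hasFDerivAt.const_mul b)).fderiv
    have ca := c0.continuous.continuousAt (x := p)
    rw [h]
    rcases le_total (p 0) 0 with h | h
    · rw [EventuallyEq.fderiv_eq (f₁ := w) (f := fun _ => 0) ((ca.eventually_lt continuousAt_const
        (show p 0 < 1 / 8 by linarith)).mono fun y hy => z y (by linarith))]
      simp [norm_smul, mul_pow]
    · rw [EventuallyEq.fderiv_eq (f₁ := w') (f := fun _ => 0) ((continuousAt_const.eventually_lt ca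
        (show -1 / 8 < p 0 by linarith)).mono fun y hy => z' y (by linarith))]
      simp [norm_smul, mul_pow]
  have s : Continuous fun p => w p ^ 2 := c.continuous.pow 2
  have s' : Continuous fun p => w' p ^ 2 := c'.continuous.pow 2
  refine ⟨e0, ?_, ?_⟩
  · simp only [N, e]
    rw [integral_add ((D.i1 s).const_mul _) ((D.i1 s').const_mul _), integral_const_mul,
      integral_const_mul]
  · simp only [Q, e, e']
    rw [integral_add ((D.i1 (cG c)).const_mul _) ((D.i1 (cG c')).const_mul _),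
      integral_add ((D.i2 s).const_mul _) ((D.i2 s').const_mul _)]
    simp only [integral_const_mul]
    ring

noncomputable def RR : E ≃ₗᵢ[ℝ] E :=
  LinearIsometryEquiv.piLpCongrRight 2
    ![LinearIsometryEquiv.neg ℝ, LinearIsometryEquiv.refl ℝ ℝ, LinearIsometryEquiv.refl ℝ ℝ]

lemma RR_a (p : E) : RR p 0 = -p 0 ∧ RR p 1 = p 1 ∧ RR p 2 = p 2 := by
  simp [RR, LinearIsometryEquiv.piLpCongrRight_apply]

/-- a pair of functions spanning a plane on which the quotient is constant -/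
def Pair (Ω : Set E) (β : ℝ) (w w' : E → ℝ) : Prop :=
  ContDiff ℝ 1 w ∧ ContDiff ℝ 1 w' ∧ 0 < N Ω w ∧ N Ω w' = N Ω w ∧ (∀ p, w p * w' p = 0) ∧
    ∀ a b : ℝ, N Ω (fun p => a * w p + b * w' p) = (a ^ 2 + b ^ 2) * N Ω w ∧
      Q Ω β (fun p => a * w p + b * w' p) = (a ^ 2 + b ^ 2) * Q Ω β w

lemma pair (D : Dom Ω) (hR : RR ⁻¹' Ω = Ω) {w : E → ℝ} (c : ContDiff ℝ 1 w) (w0 : 0 < N Ω w)
    (h : (∀ p, 8 * p 0 ≤ 1 → w p = 0) ∨ ∀ p, -1 ≤ 8 * p 0 → w p = 0) :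
    Pair Ω β w (w ∘ RR) := by
  have c' : ContDiff ℝ 1 (w ∘ RR) := c.comp RR.contDiff
  obtain ⟨r1, r2⟩ := refl (β := β) RR hR w
  rcases h with h | h
  · have := two (β := β) D c c' h fun p hp => h _ (by rw [(RR_a p).1]; linarith)
    refine ⟨c, c', w0, r1, (this 0 0).1, fun a b => ?_⟩
    rw [(this a b).2.1, (this a b).2.2, r1, r2]
    constructor <;> ring
  · have := two (β := β) D c' c (fun p hp => h _ (by rw [(RR_a p).1]; linarith)) h
    refine ⟨c, c', w0, r1, fun p => by rw [mul_comm]; exact (this 0 0).1 p, fun a b => ?_⟩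
    simp only [add_comm (a * w _)]
    rw [(this b a).2.1, (this b a).2.2, r1, r2]
    constructor <;> ring

end Pool.Agent.H.MP_d01728_an
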