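import Mathlib

set_option autoImplicit false
open MeasureTheory Set Filter Topology Metric Function

namespace Pool.Agent.H.MP_d01728_an

lemma cs1 {h h' : ℝ → ℝ} (d : ∀ t, HasDerivAt h (h' t) t) (c : Continuous h') :
    (h 1 - h (1 / 2)) ^ 2 ≤ 1 / 2 * ∫ t in Ioc (1 / 2 : ℝ) 1, h' t ^ 2 := by
  have e := intervalIntegral.integral_eq_sub_of_hasDerivAt (fun t _ => d t)
    (c.intervalIntegrable (1 / 2) 1)
  set I := h 1 - h (1 / 2)
  have c2 : Continuous fun t => h' t ^ 2 := c.pow 2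
  have := intervalIntegral.integral_mono_on (μ := volume) (show (1 / 2 : ℝ) ≤ 1 by norm_num)
    (f := fun t => 4 * I * h' t) (g := fun t => h' t ^ 2 + 4 * I ^ 2)
    ((continuous_const.mul c).intervalIntegrable _ _)
    ((c2.add continuous_const).intervalIntegrable _ _)
    fun t _ => by nlinarith [sq_nonneg (h' t - 2 * I)]
  rw [intervalIntegral.integral_const_mul, e, intervalIntegral.integral_add
    (c2.intervalIntegrable _ _) intervalIntegrable_const, intervalIntegral.integral_const,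
    intervalIntegral.integral_of_le (by norm_num)] at this
  simp only [smul_eq_mul] at this
  nlinarith

lemma intb {X : Type*} [PseudoMetricSpace X] [ProperSpace X] [MeasurableSpace X]
    [OpensMeasurableSpace X] {μ : Measure X} {s : Set X} (bd : Bornology.IsBounded s)
    (hs : μ s < ⊤) {f : X → ℝ} (cf : Continuous f) : IntegrableOn f s μ := by
  obtain ⟨B, hB⟩ := bd.isCompact_closure.exists_bound_of_continuousOn cf.continuousOn
  have : IsFiniteMeasure (μ.restrict s) := ⟨by simpa using hs⟩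
  refine Integrable.of_bound cf.aestronglyMeasurable B ?_
  refine (ae_restrict_of_ae_restrict_of_subset subset_closure ?_)
  filter_upwards [ae_restrict_mem isClosed_closure.measurableSet] with x hx using hB x hx

variable {E : Type*} [NormedAddCommGroup E] [NormedSpace ℝ E] [FiniteDimensional ℝ E]
  [MeasurableSpace E] [BorelSpace E] {μ : Measure E} [μ.IsAddHaarMeasure]

lemma st1 {Ω : Set E} (o : IsOpen Ω) (cv : Convex ℝ Ω) (bd : Bornology.IsBounded Ω) {F : E → ℝ}
    (cF : Continuous F) (F0 : ∀ x, 0 ≤ F x) {x : E} (hx : x ∈ Ω) {t : ℝ} (ht : t ∈ Ioc (1 / 2 : ℝ) 1) :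
    ∫ y in Ω, F ((1 - t) • x + t • y) ∂μ ≤ 2 ^ Module.finrank ℝ E * ∫ y in Ω, F y ∂μ := by
  have m := o.measurableSet
  have t0 : 0 < t := by linarith [ht.1]
  have i : Integrable (Ω.indicator F) μ :=
    (integrable_indicator_iff m).2 (intb bd bd.measure_lt_top cF)
  have i2 := (i.comp_add_left ((1 - t) • x)).comp_smul t0.ne'
  calc _ = ∫ y in Ω, Ω.indicator F ((1 - t) • x + t • y) ∂μ :=
        setIntegral_congr_fun m fun y hy =>
          (indicator_of_mem (cv hx hy (by linarith [ht.2]) t0.le (by ring)) F).symm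
    _ ≤ ∫ y, Ω.indicator F ((1 - t) • x + t • y) ∂μ :=
        setIntegral_le_integral i2 (ae_of_all _ fun y => indicator_nonneg (fun z _ => F0 z) _)
    _ = |(t ^ Module.finrank ℝ E)⁻¹| • ∫ y in Ω, F y ∂μ := by
        rw [Measure.integral_comp_smul μ (fun y => Ω.indicator F ((1 - t) • x + y)) t,
          integral_add_left_eq_self, integral_indicator m]
    _ ≤ _ := by
        rw [smul_eq_mul, abs_of_nonneg (by positivity), ← inv_pow]
        have : t⁻¹ ≤ 2 := by rw [inv_le_comm₀ t0 two_pos]; linarith [ht.1]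
        gcongr
        exact integral_nonneg F0

lemma iprod {X : Type*} [PseudoMetricSpace X] [ProperSpace X] [MeasurableSpace X]
    [BorelSpace X] {ν : Measure X} [SFinite ν] {s : Set E} {t : Set X} (bs : Bornology.IsBounded s)
    (bt : Bornology.IsBounded t) (ht : ν t < ⊤) {f : E → X → ℝ} (cf : Continuous (uncurry f)) :
    Integrable (uncurry f) ((μ.restrict s).prod (ν.restrict t)) := by
  rw [Measure.prod_restrict]
  refine intb (bs.prod bt) ?_ cf
  rw [Measure.prod_prod]
  exact ENNReal.mul_lt_top bs.measure_lt_top ht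

lemma st2 {Ω : Set E} (o : IsOpen Ω) (cv : Convex ℝ Ω) (bd : Bornology.IsBounded Ω) {D : ℝ}
    (hD : ∀ x ∈ Ω, ∀ y ∈ Ω, ‖x - y‖ ≤ D) {v : E → ℝ} (hv : ContDiff ℝ 1 v) {x : E} (hx : x ∈ Ω) :
    ∫ y in Ω, (v y - v ((1 / 2 : ℝ) • (x + y))) ^ 2 ∂μ ≤
      D ^ 2 / 4 * (2 ^ Module.finrank ℝ E * ∫ y in Ω, ‖fderiv ℝ v y‖ ^ 2 ∂μ) := by
  have cd := hv.continuous_fderiv one_ne_zero
  have cv0 := hv.continuous
  have cF : Continuous fun y => ‖fderiv ℝ v y‖ ^ 2 := cd.norm.pow 2
  have ip : Integrable (uncurry fun (y : E) (t : ℝ) => ‖fderiv ℝ v ((1 - t) • x + t • y)‖ ^ 2)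
      ((μ.restrict Ω).prod (volume.restrict (Ioc (1 / 2 : ℝ) 1))) :=
    iprod bd (isBounded_Ioc _ _) (by simp) (cF.comp (by fun_prop))
  calc _ ≤ ∫ y in Ω, D ^ 2 / 2 * ∫ t in Ioc (1 / 2 : ℝ) 1,
        ‖fderiv ℝ v ((1 - t) • x + t • y)‖ ^ 2 ∂volume ∂μ := by
        refine setIntegral_mono_on (intb bd bd.measure_lt_top (by fun_prop))
          (ip.integral_prod_left.const_mul _) o.measurableSet fun y hy => ?_
        have h := cs1 (h := fun t : ℝ => v ((1 - t) • x + t • y))
          (h' := fun t => fderiv ℝ v ((1 - t) • x + t • y) (y - x)) (fun t => by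
            have h1 : HasDerivAt (fun t : ℝ => (1 - t) • x + t • y) (y - x) t :=
              ((((hasDerivAt_id t).const_sub 1).smul_const x).add
                ((hasDerivAt_id t).smul_const y)).congr_deriv (by module)
            exact (hv.differentiable one_ne_zero _).hasFDerivAt.comp_hasDerivAt t h1)
          (by fun_prop)
        have e : (1 - 1 / 2 : ℝ) • x + (1 / 2 : ℝ) • y = (1 / 2 : ℝ) • (x + y) := by module
        simp only [sub_self, zero_smul, one_smul, zero_add, e] at h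
        refine h.trans ?_
        rw [div_eq_mul_one_div (D ^ 2), mul_comm (D ^ 2), mul_assoc, ← integral_const_mul (D ^ 2)]
        gcongr 1 / 2 * ?_
        refine setIntegral_mono_on (intb (isBounded_Ioc _ _) (by simp) (by fun_prop))
          (intb (isBounded_Ioc _ _) (by simp) (by fun_prop)) measurableSet_Ioc fun t _ => ?_
        rw [← mul_pow, ← sq_abs, ← Real.norm_eq_abs]
        gcongr
        refine (ContinuousLinearMap.le_opNorm _ _).trans ?_
        rw [mul_comm]
        gcongr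
        exact hD y hy x hx
    _ = D ^ 2 / 2 * ∫ t in Ioc (1 / 2 : ℝ) 1, ∫ y in Ω,
        ‖fderiv ℝ v ((1 - t) • x + t • y)‖ ^ 2 ∂μ := by
        rw [integral_const_mul, integral_integral_swap ip]
    _ ≤ D ^ 2 / 2 * ∫ t in Ioc (1 / 2 : ℝ) 1,
        2 ^ Module.finrank ℝ E * ∫ y in Ω, ‖fderiv ℝ v y‖ ^ 2 ∂μ := by
        gcongr D ^ 2 / 2 * ?_
        exact setIntegral_mono_on ip.integral_prod_right (integrableOn_const (by simp))
          measurableSet_Ioc fun t ht => st1 o cv bd cF (fun _ => by positivity) hx ht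
    _ = _ := by
        rw [setIntegral_const]
        simp only [smul_eq_mul, Real.volume_real_Ioc]
        norm_num
        ring

theorem poinc {Ω : Set E} (o : IsOpen Ω) (cv : Convex ℝ Ω) (bd : Bornology.IsBounded Ω)
    (ne : Ω.Nonempty) {D : ℝ}
    (hD : ∀ x ∈ Ω, ∀ y ∈ Ω, ‖x - y‖ ≤ D) {v : E → ℝ} (hv : ContDiff ℝ 1 v)
    (h0 : ∫ y in Ω, v y ∂μ = 0) :
    ∫ y in Ω, v y ^ 2 ∂μ ≤ D ^ 2 * 2 ^ Module.finrank ℝ E * ∫ y in Ω, ‖fderiv ℝ v y‖ ^ 2 ∂μ := by
  have c := hv.continuous
  have fin : μ Ω < ⊤ := bd.measure_lt_top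
  have pos : 0 < μ.real Ω := ENNReal.toReal_pos (o.measure_pos μ ne).ne' fin.ne
  have m := o.measurableSet
  set K := D ^ 2 / 4 * (2 ^ Module.finrank ℝ E * ∫ y in Ω, ‖fderiv ℝ v y‖ ^ 2 ∂μ) with hK
  have i1 : Integrable (uncurry fun x y : E => (v y - v ((1 / 2 : ℝ) • (x + y))) ^ 2)
      ((μ.restrict Ω).prod (μ.restrict Ω)) := iprod bd bd fin (by fun_prop)
  have i2 : Integrable (uncurry fun x y : E => (v x - v ((1 / 2 : ℝ) • (y + x))) ^ 2)
      ((μ.restrict Ω).prod (μ.restrict Ω)) := iprod bd bd fin (by fun_prop)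
  have b1 : ∫ x in Ω, ∫ y in Ω, (v y - v ((1 / 2 : ℝ) • (x + y))) ^ 2 ∂μ ∂μ ≤ μ.real Ω * K := by
    refine (setIntegral_mono_on i1.integral_prod_left (integrableOn_const fin.ne) m
      fun x hx => st2 o cv bd hD hv hx).trans_eq ?_
    rw [setIntegral_const, smul_eq_mul]
  have b2 : ∫ x in Ω, ∫ y in Ω, (v x - v ((1 / 2 : ℝ) • (y + x))) ^ 2 ∂μ ∂μ ≤ μ.real Ω * K := by
    rwa [integral_integral_swap i2]
  have b3 : ∫ x in Ω, μ.real Ω * v x ^ 2 ∂μ ≤ ∫ x in Ω,
      (2 * ∫ y in Ω, (v y - v ((1 / 2 : ℝ) • (x + y))) ^ 2 ∂μ) +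
      2 * ∫ y in Ω, (v x - v ((1 / 2 : ℝ) • (y + x))) ^ 2 ∂μ ∂μ := by
    refine setIntegral_mono_on (intb bd fin (by fun_prop))
      ((i1.integral_prod_left.const_mul 2).add (i2.integral_prod_left.const_mul 2)) m
      fun x _ => ?_
    rw [← integral_const_mul, ← integral_const_mul, ← integral_add (intb bd fin (by fun_prop))
      (intb bd fin (by fun_prop))]
    refine le_trans (le_of_eq ?_) (setIntegral_mono_on (f := fun y => v x ^ 2 - 2 * v x * v y)
      (intb bd fin (by fun_prop)) (intb bd fin (by fun_prop)) m fun y _ => ?_)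
    · rw [integral_sub (f := fun _ => v x ^ 2) (g := fun y => 2 * v x * v y)
        (intb bd fin (by fun_prop)) (intb bd fin (by fun_prop)), integral_const_mul,
        h0, setIntegral_const]
      simp
    · rw [add_comm y x]
      nlinarith [sq_nonneg (v y), sq_nonneg (v x + v y - 2 * v ((1 / 2 : ℝ) • (x + y)))]
  have j1 := i1.integral_prod_left.const_mul 2
  have j2 := i2.integral_prod_left.const_mul 2
  simp only [uncurry] at j1 j2
  rw [integral_add j1 j2, integral_const_mul, integral_const_mul, integral_const_mul] at b3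
  refine le_of_mul_le_mul_left (b3.trans ?_) pos
  have : D ^ 2 * 2 ^ Module.finrank ℝ E * ∫ y in Ω, ‖fderiv ℝ v y‖ ^ 2 ∂μ = 4 * K := by
    rw [hK]; ring
  rw [this]
  linarith

end Pool.Agent.H.MP_d01728_an
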