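import Pool.Agent.H.MP_d01728_an.B

set_option autoImplicit false
open MeasureTheory Set Filter Topology Metric Function Real

namespace Pool.Agent.H.MP_d01728_an

def Bx {n : ℕ} (l h : Fin n → ℝ) : Set (EuclideanSpace ℝ (Fin n)) := {p | ∀ i, p i ∈ Ioo (l i) (h i)}

lemma Bx_eq {n : ℕ} (l h : Fin n → ℝ) :
    Bx l h = WithLp.ofLp ⁻¹' (pi univ fun i => Ioo (l i) (h i)) := by
  ext p; simp [Bx]

lemma Bx_o {n : ℕ} (l h : Fin n → ℝ) : IsOpen (Bx l h) := by
  rw [Bx_eq]
  exact (isOpen_set_pi finite_univ fun _ _ => isOpen_Ioo).preimage (by fun_prop)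

lemma Bx_int {n : ℕ} (l h : Fin n → ℝ) (g : EuclideanSpace ℝ (Fin n) → ℝ) :
    ∫ p in Bx l h, g p = ∫ x in Icc l h, g (WithLp.toLp 2 x) := by
  have : (pi univ fun i => Ioo (l i) (h i)) =ᵐ[volume] Icc l h := Measure.univ_pi_Ioo_ae_eq_Icc
  rw [← setIntegral_congr_set this, Bx_eq,
    ← (PiLp.volume_preserving_ofLp (Fin n)).setIntegral_preimage_emb
      (MeasurableEquiv.toLp 2 _).symm.measurableEmbedding]

lemma vol_Icc {n : ℕ} (l h : Fin n → ℝ) :
    volume {p : EuclideanSpace ℝ (Fin n) | ∀ i, p i ∈ Icc (l i) (h i)} =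
      ∏ i, ENNReal.ofReal (h i - l i) := by
  rw [← Real.volume_Icc_pi, ← (PiLp.volume_preserving_ofLp (Fin n)).measure_preimage
    measurableSet_Icc.nullMeasurableSet]
  congr 1
  ext p; simp [Pi.le_def, forall_and]

lemma vol_Bx {n : ℕ} (l h : Fin n → ℝ) : volume (Bx l h) = ∏ i, ENNReal.ofReal (h i - l i) := by
  rw [← Real.volume_pi_Ioo, Bx_eq, (PiLp.volume_preserving_ofLp (Fin n)).measure_preimage
    (MeasurableSet.univ_pi fun _ => measurableSet_Ioo).nullMeasurableSet]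

noncomputable def ph (i : Fin 3) (c : ℝ) (q : EuclideanSpace ℝ (Fin 2)) : E :=
  WithLp.toLp 2 (Fin.insertNth i c q.ofLp)

lemma ph_iso (i : Fin 3) (c : ℝ) : Isometry (ph i c) := Isometry.of_dist_eq fun p q => by
  rw [EuclideanSpace.dist_eq, EuclideanSpace.dist_eq, Fin.sum_univ_succAbove _ i]
  simp [ph]

def Fc (l h : Fin 3 → ℝ) (i : Fin 3) (c : ℝ) : Set E :=
  ph i c '' Bx (l ∘ i.succAbove) (h ∘ i.succAbove)

lemma Fc_m (l h : Fin 3 → ℝ) (i : Fin 3) (c : ℝ) : MeasurableSet (Fc l h i c) :=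
  (ph_iso i c).isClosedEmbedding.measurableEmbedding.measurableSet_image.2 (Bx_o _ _).measurableSet

lemma Fc_mem {l h : Fin 3 → ℝ} {i : Fin 3} {c : ℝ} {p : E} (hp : p ∈ Fc l h i c) :
    p i = c ∧ ∀ j, p (i.succAbove j) ∈ Ioo (l (i.succAbove j)) (h (i.succAbove j)) := by
  obtain ⟨q, hq, rfl⟩ := hp
  exact ⟨by simp [ph], fun j => by simpa [ph] using hq j⟩

lemma Fc_int (l h : Fin 3 → ℝ) (i : Fin 3) (c : ℝ) (g : E → ℝ) :
    ∫ p in Fc l h i c, g p ∂μHE[2] =
      ∫ x in Icc (l ∘ i.succAbove) (h ∘ i.succAbove), g (WithLp.toLp 2 (Fin.insertNth i c x)) := by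
  have me := (ph_iso i c).isClosedEmbedding.measurableEmbedding
  have : μHE[2].restrict (Fc l h i c) = (μHE[2].map (ph i c)).restrict (Fc l h i c) := by
    rw [(ph_iso i c).map_euclideanHausdorffMeasure, Measure.restrict_restrict (Fc_m l h i c),
      Fc, inter_eq_left.2 (image_subset_range _ _)]
  rw [this, me.setIntegral_map, Fc, preimage_image_eq _ (ph_iso i c).injective,
    EuclideanSpace.euclideanHausdorffMeasure_eq_volume, Bx_int]
  rfl

lemma div1 (i : Fin 3) {l h : Fin 3 → ℝ} (hle : l ≤ h) {F : E → ℝ} (hF : ContDiff ℝ 1 F) :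
    ∫ p in Bx l h, fderiv ℝ F p (EuclideanSpace.single i 1) =
      (∫ p in Fc l h i (h i), F p ∂μHE[2]) - ∫ p in Fc l h i (l i), F p ∂μHE[2] := by
  let L : (Fin 3 → ℝ) →L[ℝ] E := (EuclideanSpace.equiv (Fin 3) ℝ).symm
  have e : ∀ x : Fin 3 → ℝ, ∑ j, (if j = i then (fderiv ℝ F (L x)).comp L else 0)
      (Pi.single j 1) = fderiv ℝ F (L x) (EuclideanSpace.single i 1) := fun x => by
    rw [Finset.sum_eq_single i (fun j _ hj => by simp [hj]) (by simp), if_pos rfl]
    rfl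
  have cd := hF.continuous_fderiv one_ne_zero
  have := integral_divergence_of_hasFDerivAt_off_countable' l h hle
    (fun j x => if j = i then F (L x) else 0)
    (fun j x => if j = i then (fderiv ℝ F (L x)).comp L else 0) ∅ countable_empty
    (fun j => by
      split_ifs
      exacts [(hF.continuous.comp L.continuous).continuousOn, continuousOn_const])
    (fun x _ j => by
      split_ifs
      exacts [(hF.differentiable one_ne_zero _).hasFDerivAt.comp x L.hasFDerivAt,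
        hasFDerivAt_const _ _])
    (by simp only [e]; exact Continuous.integrableOn_Icc (by fun_prop))
  simp only [e] at this
  rw [Finset.sum_eq_single i (fun j _ hj => by simp [hj]) (by simp)] at this
  simp only [if_true] at this
  rw [Bx_int, Fc_int, Fc_int]
  exact this

lemma div2 (i : Fin 3) {l h : Fin 3 → ℝ} (hle : l ≤ h) {v : E → ℝ} (hv : ContDiff ℝ 1 v) :
    ∫ p in Bx l h, (v p ^ 2 + 2 * p i * v p * fderiv ℝ v p (EuclideanSpace.single i 1)) =
      (h i * ∫ p in Fc l h i (h i), v p ^ 2 ∂μHE[2]) -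
        l i * ∫ p in Fc l h i (l i), v p ^ 2 ∂μHE[2] := by
  have pi := (EuclideanSpace.proj (𝕜 := ℝ) i : E →L[ℝ] ℝ).contDiff (n := 1)
  have := div1 i hle (F := fun p => p i * v p ^ 2) (pi.mul (hv.pow 2))
  rw [setIntegral_congr_fun (Fc_m _ _ _ _) (g := fun p => h i * v p ^ 2)
    fun p hp => by simp only [(Fc_mem hp).1],
    setIntegral_congr_fun (Fc_m _ _ _ (l i)) (f := fun p : E => p i * v p ^ 2)
      (g := fun p => l i * v p ^ 2)
    fun p hp => by simp only [(Fc_mem hp).1], integral_const_mul, integral_const_mul] at this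
  rw [← this]
  congr 1
  ext p
  have h1 : fderiv ℝ (fun p : E => p i * v p ^ 2) p = _ :=
    ((EuclideanSpace.proj (𝕜 := ℝ) i : E →L[ℝ] ℝ).hasFDerivAt.mul
      ((hv.differentiable one_ne_zero p).hasFDerivAt.pow 2)).fderiv
  rw [h1]
  simp
  ring

lemma face_le (o u v : E) {κ x1 x2 y1 y2 : ℝ} (κ0 : 0 ≤ κ) (hx : x1 ≤ x2)
    (h : ∀ s t : ℝ, ‖s • u + t • v‖ ^ 2 ≤ κ * (s ^ 2 + t ^ 2)) {S : Set E}
    (hS : ∀ p ∈ S, ∃ s ∈ Icc x1 x2, ∃ t ∈ Icc y1 y2, p = o + s • u + t • v) :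
    μHE[2] S ≤ ENNReal.ofReal (κ * (x2 - x1) * (y2 - y1)) := by
  let f : EuclideanSpace ℝ (Fin 2) → E := fun q => o + q 0 • u + q 1 • v
  have lf : LipschitzWith (NNReal.sqrt κ.toNNReal) f := LipschitzWith.of_dist_le_mul fun p q => by
    have : f p - f q = (p - q) 0 • u + (p - q) 1 • v := by simp only [f, PiLp.sub_apply]; module
    rw [dist_eq_norm, dist_eq_norm, this]
    refine (sq_le_sq₀ (norm_nonneg _) (by positivity)).1 ((h _ _).trans_eq ?_)
    rw [mul_pow, ← NNReal.coe_pow, NNReal.sq_sqrt, EuclideanSpace.real_norm_sq_eq,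
      Fin.sum_univ_two, Real.coe_toNNReal _ κ0]
  have h1 := lf.hausdorffMeasure_image_le (d := (2 : ℕ)) (by simp)
    {p | ∀ i, p i ∈ Icc (![x1, y1] i) (![x2, y2] i)}
  have h2 := vol_Icc ![x1, y1] ![x2, y2]
  rw [← EuclideanSpace.euclideanHausdorffMeasure_eq_volume] at h2
  calc μHE[2] S ≤ μHE[2] (f '' {p | ∀ i, p i ∈ Icc (![x1, y1] i) (![x2, y2] i)}) := by
        refine measure_mono fun p hp => ?_
        obtain ⟨s, hs, t, ht, rfl⟩ := hS p hp
        exact ⟨!₂[s, t], fun i => by fin_cases i <;> simpa, by simp [f]⟩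
    _ ≤ ENNReal.ofReal κ * μHE[2] {p : EuclideanSpace ℝ (Fin 2) |
          ∀ i, p i ∈ Icc (![x1, y1] i) (![x2, y2] i)} := by
        rw [Measure.euclideanHausdorffMeasure_def, Measure.euclideanHausdorffMeasure_def,
          Measure.smul_apply, Measure.smul_apply, ENNReal.smul_def, ENNReal.smul_def,
          smul_eq_mul, smul_eq_mul, mul_left_comm]
        gcongr
        refine h1.trans_eq ?_
        rw [ENNReal.rpow_natCast, ← ENNReal.coe_pow, NNReal.sq_sqrt]
        rfl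
    _ = _ := by
        rw [h2, Fin.prod_univ_two, mul_assoc, ENNReal.ofReal_mul κ0,
          ENNReal.ofReal_mul (sub_nonneg.2 hx)]
        rfl

end Pool.Agent.H.MP_d01728_an
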