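import Pool.Agent.H.MP_d01728_an.C

set_option autoImplicit false
open MeasureTheory Set Filter Topology Metric Function Real

namespace Pool.Agent.H.MP_d01728_an

def Om (a : ℝ) : Set E :=
  {p | |p 0| < 1 ∧ |p 1| < a ∧ |p 2| < a ∧ 3 * p 1 + 4 * p 2 + a * (|p 0| - 1 / 2) < 7 * a}

def Cl (a : ℝ) : Set E :=
  {p | |p 0| ≤ 1 ∧ |p 1| ≤ a ∧ |p 2| ≤ a ∧ 3 * p 1 + 4 * p 2 + a * (|p 0| - 1 / 2) ≤ 7 * a}

variable {a : ℝ}

lemma Om_o : IsOpen (Om a) := by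
  simp only [Om, ofPred_and]
  refine .inter ?_ (.inter ?_ (.inter ?_ ?_)) <;> exact isOpen_lt (by fun_prop) (by fun_prop)

lemma Cl_c : IsClosed (Cl a) := by
  simp only [Cl, ofPred_and]
  refine .inter ?_ (.inter ?_ (.inter ?_ ?_)) <;> exact isClosed_le (by fun_prop) (by fun_prop)

lemma cvx {s t x y c : ℝ} (hs : 0 ≤ s) (ht : 0 ≤ t) (h : s + t = 1) (hx : x < c) (hy : y < c) :
    s * x + t * y < c := convex_Iio c hx hy hs ht h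

lemma absc {s t : ℝ} (hs : 0 ≤ s) (ht : 0 ≤ t) (x y : ℝ) : |s * x + t * y| ≤ s * |x| + t * |y| :=
  (abs_add_le _ _).trans_eq (by rw [abs_mul, abs_mul, abs_of_nonneg hs, abs_of_nonneg ht])

lemma Om_cv (a0 : 0 < a) : Convex ℝ (Om a) := by
  rintro p ⟨p0, p1, p2, p3⟩ q ⟨q0, q1, q2, q3⟩ s t hs ht h
  simp only [Om, mem_ofPred_eq, PiLp.add_apply, PiLp.smul_apply, smul_eq_mul]
  refine ⟨(absc hs ht _ _).trans_lt (cvx hs ht h p0 q0), (absc hs ht _ _).trans_lt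
    (cvx hs ht h p1 q1), (absc hs ht _ _).trans_lt (cvx hs ht h p2 q2),
    lt_of_le_of_lt ?_ (cvx hs ht h p3 q3)⟩
  have := mul_le_mul_of_nonneg_left (absc hs ht (p 0) (q 0)) a0.le
  have e : a * s + a * t = a := by rw [← mul_add, h, mul_one]
  linarith

lemma Om_d (a1 : a ≤ 1 / 1000) : ∀ p ∈ Om a, ∀ q ∈ Om a, ‖p - q‖ ≤ 3 := by
  rintro p ⟨p0, p1, p2, -⟩ q ⟨q0, q1, q2, -⟩
  refine (sq_le_sq₀ (norm_nonneg _) (by norm_num)).1 ?_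
  rw [EuclideanSpace.real_norm_sq_eq, Fin.sum_univ_three]
  simp only [PiLp.sub_apply]
  rw [abs_lt] at *
  nlinarith [p0.1, p0.2, q0.1, q0.2, p1.1, p1.2, q1.1, q1.2, p2.1, p2.2, q2.1, q2.2]

lemma Om_0 (a0 : 0 < a) : (0 : E) ∈ Om a := by
  simp only [Om, mem_ofPred_eq, PiLp.zero_apply, abs_zero]
  exact ⟨one_pos, a0, a0, by linarith⟩

lemma Om_bd (a0 : 0 < a) (a1 : a ≤ 1 / 1000) : Bornology.IsBounded (Om a) :=
  isBounded_iff_forall_norm_le.2 ⟨3, fun p hp => by simpa using Om_d a1 p hp 0 (Om_0 a0)⟩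

lemma Om_R : RR ⁻¹' Om a = Om a := by
  ext p
  simp only [Om, mem_preimage, mem_ofPred_eq, (RR_a p).1, (RR_a p).2.1, (RR_a p).2.2, abs_neg]

lemma fr_sub {p : E} (hp : p ∈ frontier (Om a)) : p ∈ Cl a ∧ p ∉ Om a := by
  rw [Om_o.frontier_eq] at hp
  exact ⟨closure_minimal (t := Cl a) (fun q hq => by
    exact ⟨hq.1.le, hq.2.1.le, hq.2.2.1.le, hq.2.2.2.le⟩) Cl_c hp.1,
    hp.2⟩

lemma fr_le (a0 : 0 < a) (a1 : a ≤ 1 / 1000) {x : ℝ} (x0 : 0 ≤ x) (x1 : x ≤ 1) :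
    μHE[2] (frontier (Om a) ∩ {p | x ≤ p 0}) ≤ ENNReal.ofReal (4 * a ^ 2 + (1 - x) *
      (8 * a - 7 * a * (x - 1 / 2) / 12 + 1001 / 1000 * (5 * a / 24))) := by
  let T : Set E := Cl a ∩ {p | x ≤ p 0}
  have n : ∀ (u v : E) (κ : ℝ), (∀ s t : ℝ, (s * u 0 + t * v 0) ^ 2 + (s * u 1 + t * v 1) ^ 2 +
      (s * u 2 + t * v 2) ^ 2 ≤ κ * (s ^ 2 + t ^ 2)) →
      ∀ s t : ℝ, ‖s • u + t • v‖ ^ 2 ≤ κ * (s ^ 2 + t ^ 2) := fun u v κ h s t => by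
    rw [EuclideanSpace.real_norm_sq_eq, Fin.sum_univ_three]
    exact h s t
  have f1 := face_le !₂[1, 0, 0] !₂[0, 1, 0] !₂[0, 0, 1] (x1 := -a) (x2 := a) (y1 := -a) (y2 := a)
    zero_le_one (by linarith) (n _ _ 1 fun s t => by simp) (S := T ∩ {p | p 0 = 1})
    fun p ⟨⟨⟨h0, h1, h2, h3⟩, h4⟩, h5⟩ => ⟨p 1, abs_le.1 h1, p 2, abs_le.1 h2, by
      ext i; fin_cases i <;> simp [show p 0 = 1 from h5]⟩
  have f2 := face_le !₂[0, -a, 0] !₂[1, 0, 0] !₂[0, 0, 1] (x1 := x) (x2 := 1) (y1 := -a) (y2 := a)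
    zero_le_one x1 (n _ _ 1 fun s t => by simp) (S := T ∩ {p | p 1 = -a})
    fun p ⟨⟨⟨h0, h1, h2, h3⟩, h4⟩, h5⟩ => ⟨p 0, ⟨h4, (abs_le.1 h0).2⟩, p 2, abs_le.1 h2, by
      ext i; fin_cases i <;> simp [show p 1 = -a from h5]⟩
  have f3 := face_le !₂[0, 0, -a] !₂[1, 0, 0] !₂[0, 1, 0] (x1 := x) (x2 := 1) (y1 := -a) (y2 := a)
    zero_le_one x1 (n _ _ 1 fun s t => by simp) (S := T ∩ {p | p 2 = -a})
    fun p ⟨⟨⟨h0, h1, h2, h3⟩, h4⟩, h5⟩ => ⟨p 0, ⟨h4, (abs_le.1 h0).2⟩, p 1, abs_le.1 h1, by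
      ext i; fin_cases i <;> simp [show p 2 = -a from h5]⟩
  have k : ∀ p : E, x ≤ p 0 → a * x ≤ a * |p 0| := fun p h =>
    mul_le_mul_of_nonneg_left (h.trans (le_abs_self _)) a0.le
  have f4 := face_le !₂[0, a, 0] !₂[1, 0, 0] !₂[0, 0, 1] (x1 := x) (x2 := 1) (y1 := -a)
    (y2 := a - a * (x - 1 / 2) / 4)
    zero_le_one x1 (n _ _ 1 fun s t => by simp) (S := T ∩ {p | p 1 = a})
    fun p ⟨⟨⟨h0, h1, h2, h3⟩, h4⟩, h5⟩ => ⟨p 0, ⟨h4, (abs_le.1 h0).2⟩, p 2,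
      ⟨(abs_le.1 h2).1, by linarith [k p h4, show p 1 = a from h5]⟩, by
      ext i; fin_cases i <;> simp [show p 1 = a from h5]⟩
  have f5 := face_le !₂[0, 0, a] !₂[1, 0, 0] !₂[0, 1, 0] (x1 := x) (x2 := 1) (y1 := -a)
    (y2 := a - a * (x - 1 / 2) / 3)
    zero_le_one x1 (n _ _ 1 fun s t => by simp) (S := T ∩ {p | p 2 = a})
    fun p ⟨⟨⟨h0, h1, h2, h3⟩, h4⟩, h5⟩ => ⟨p 0, ⟨h4, (abs_le.1 h0).2⟩, p 1,
      ⟨(abs_le.1 h1).1, by linarith [k p h4, show p 2 = a from h5]⟩, by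
      ext i; fin_cases i <;> simp [show p 2 = a from h5]⟩
  have f6 := face_le !₂[0, a, 9 * a / 8] !₂[1, 0, -a / 4] !₂[0, -4 / 5, 3 / 5] (x1 := x) (x2 := 1)
    (y1 := 0) (y2 := 5 * a / 24) (κ := 1001 / 1000)
    (by norm_num) x1 (n _ _ _ fun s t => by
      simp
      nlinarith [mul_nonneg a0.le (sq_nonneg (s + t)), mul_nonneg (sub_nonneg.2 a1) (sq_nonneg s),
        mul_nonneg (sub_nonneg.2 a1) (sq_nonneg t), sq_nonneg s, sq_nonneg t,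
        mul_nonneg (mul_nonneg a0.le (sub_nonneg.2 a1)) (sq_nonneg s)])
    (S := T ∩ {p | 3 * p 1 + 4 * p 2 + a * (p 0 - 1 / 2) = 7 * a})
    fun p ⟨⟨⟨h0, h1, h2, h3⟩, h4⟩, h5⟩ => ⟨p 0, ⟨h4, (abs_le.1 h0).2⟩, 5 * (a - p 1) / 4, by
      have := mul_le_mul_of_nonneg_left (abs_le.1 h0).2 a0.le
      have h6 : 3 * p 1 + 4 * p 2 + a * (p 0 - 1 / 2) = 7 * a := h5
      constructor <;> linarith [(abs_le.1 h1).2, (abs_le.1 h2).2], by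
      have h6 : 3 * p 1 + 4 * p 2 + a * (p 0 - 1 / 2) = 7 * a := h5
      ext i; fin_cases i <;> simp <;> linarith⟩
  have sub : frontier (Om a) ∩ {p | x ≤ p 0} ⊆ T ∩ {p | p 0 = 1} ∪ (T ∩ {p | p 1 = -a} ∪
      (T ∩ {p | p 2 = -a} ∪ (T ∩ {p | p 1 = a} ∪ (T ∩ {p | p 2 = a} ∪
      T ∩ {p | 3 * p 1 + 4 * p 2 + a * (p 0 - 1 / 2) = 7 * a})))) := by
    rintro p ⟨hp, h4⟩
    obtain ⟨hc, hn⟩ := fr_sub hp
    have hT : p ∈ T := ⟨hc, h4⟩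
    obtain ⟨h0, h1, h2, h3⟩ := hc
    have e := abs_of_nonneg (x0.trans h4)
    by_contra hh
    simp only [mem_union, mem_inter_iff, hT, true_and, mem_ofPred_eq, not_or] at hh
    obtain ⟨g1, g2, g3, g4, g5, g6⟩ := hh
    rw [abs_le] at h1 h2
    refine hn ⟨h0.lt_of_ne (by rwa [e]), abs_lt.2 ⟨h1.1.lt_of_ne' g2, h1.2.lt_of_ne g4⟩,
      abs_lt.2 ⟨h2.1.lt_of_ne' g3, h2.2.lt_of_ne g5⟩, h3.lt_of_ne (by rwa [e])⟩
  have l := sub_nonneg.2 x1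
  have ax : a * x ≤ a := mul_le_of_le_one_right a0.le x1
  have m : ∀ {A B : Set E} {r s : ℝ}, μHE[2] A ≤ ENNReal.ofReal r → μHE[2] B ≤ ENNReal.ofReal s →
      0 ≤ r → 0 ≤ s → μHE[2] (A ∪ B) ≤ ENNReal.ofReal (r + s) ∧ 0 ≤ r + s :=
    fun h1 h2 r0 s0 => ⟨(measure_union_le _ _).trans (by
      rw [ENNReal.ofReal_add r0 s0]; exact add_le_add h1 h2), add_nonneg r0 s0⟩
  have m1 := m f5 f6 (mul_nonneg (by linarith) (by linarith))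
    (mul_nonneg (by linarith) (by linarith))
  have m2 := m f4 m1.1 (mul_nonneg (by linarith) (by linarith)) m1.2
  have m3 := m f3 m2.1 (mul_nonneg (by linarith) (by linarith)) m2.2
  have m4 := m f2 m3.1 (mul_nonneg (by linarith) (by linarith)) m3.2
  have m5 := m f1 m4.1 (mul_nonneg (by linarith) (by linarith)) m4.2
  refine (measure_mono sub).trans (m5.1.trans_eq ?_)
  congr 1
  ring

lemma fr_all (a0 : 0 < a) (a1 : a ≤ 1 / 1000) : μHE[2] (frontier (Om a)) < ⊤ := by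
  have h := (fr_le a0 a1 le_rfl zero_le_one).trans_lt ENNReal.ofReal_lt_top
  have h3 : RR ⁻¹' frontier (Om a) = frontier (Om a) :=
    (RR.toHomeomorph.preimage_frontier _).trans (congrArg frontier Om_R)
  have h2 := RR.isometry.euclideanHausdorffMeasure_image (d := 2)
    (frontier (Om a) ∩ {p | 0 ≤ p 0})
  refine (measure_mono (t := _ ∪ RR '' (frontier (Om a) ∩ {p | 0 ≤ p 0})) fun p hp => ?_).trans_lt
    ((measure_union_le _ _).trans_lt (ENNReal.add_lt_top.2 ⟨h, h2.trans_lt h⟩))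
  rcases le_total 0 (p 0) with h0 | h0
  · exact .inl ⟨hp, h0⟩
  · refine .inr ⟨RR.symm p, ⟨by rw [← h3]; simpa using hp, ?_⟩, by simp⟩
    have := (RR_a (RR.symm p)).1
    rw [RR.apply_symm_apply] at this
    show 0 ≤ RR.symm p 0
    linarith

lemma Om_D (a0 : 0 < a) (a1 : a ≤ 1 / 1000) : Dom (Om a) := ⟨Om_o, Om_bd a0 a1, fr_all a0 a1⟩

end Pool.Agent.H.MP_d01728_an
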