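import Pool.Agent.H.MP_d01728_an.D

set_option autoImplicit false
open MeasureTheory Set Filter Topology Metric Function Real

namespace Pool.Agent.H.MP_d01728_an

variable {a β : ℝ}

lemma fr_mem (a0 : 0 < a) {p : E} (h0 : |p 0| ≤ 1 / 2) (h1 : |p 1| ≤ a) (h2 : |p 2| ≤ a)
    (h : |p 1| = a ∨ |p 2| = a) : p ∈ frontier (Om a) := by
  rw [Om_o.frontier_eq]
  refine ⟨?_, fun hp => h.elim hp.2.1.ne hp.2.2.1.ne⟩
  have : Tendsto (fun t : ℝ => t • p) (𝓝[<] 1) (𝓝 p) := by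
    simpa using ((show Continuous fun t : ℝ => t • p by fun_prop).tendsto 1).mono_left
      (nhdsWithin_le_nhds (s := Iio 1))
  refine mem_closure_of_tendsto this (mem_of_superset (Ioo_mem_nhdsLT one_pos) fun t ht => ?_)
  simp only [Om, mem_ofPred_eq, PiLp.smul_apply, smul_eq_mul, abs_mul, abs_of_pos ht.1]
  have k : ∀ x c : ℝ, x ≤ c → t * x ≤ t * c := fun x c h => mul_le_mul_of_nonneg_left h ht.1.le
  have ta : t * a < a := mul_lt_of_lt_one_left a0 ht.2
  have b0 := k _ _ h0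
  have b1 := k _ _ (abs_le.1 h1).2
  have b2 := k _ _ (abs_le.1 h2).2
  refine ⟨by linarith [ht.2], (k _ _ h1).trans_lt ta, (k _ _ h2).trans_lt ta, ?_⟩
  nlinarith [ht.2]

lemma bar (a0 : 0 < a) (a1 : a ≤ 1 / 1000) (β0 : 0 ≤ β) {v : E → ℝ} (hv : ContDiff ℝ 1 v)
    (z : ∀ p, 1 / 2 ≤ |p 0| → v p = 0) :
    (2 * β - 2 * β ^ 2 * a) * N (Om a) v ≤ a * Q (Om a) β v := by
  have D := Om_D a0 a1
  set l : Fin 3 → ℝ := ![-(1 / 2), -a, -a] with hl
  set h : Fin 3 → ℝ := ![1 / 2, a, a] with hh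
  have hle : l ≤ h := fun i => by fin_cases i <;> simp [l, h] <;> linarith
  have mem : ∀ p : E, p ∈ Bx l h ↔ |p 0| < 1 / 2 ∧ |p 1| < a ∧ |p 2| < a := fun p => by
    simp only [Bx, mem_ofPred_eq, Fin.forall_fin_succ, abs_lt, mem_Ioo]
    simp [l, h]
  have sub : Bx l h ⊆ Om a := fun p hp => by
    obtain ⟨h0, h1, h2⟩ := (mem p).1 hp
    refine ⟨by linarith, h1, h2, ?_⟩
    nlinarith [(abs_lt.1 h1).2, (abs_lt.1 h2).2]
  have d1 := div2 1 hle hv
  have d2 := div2 2 hle hv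
  have m1 : ∀ {c : ℝ} {p : E}, p ∈ Fc l h 1 c → p 1 = c ∧ |p 0| < 1 / 2 ∧ |p 2| < a := fun hp =>
    ⟨(Fc_mem hp).1, abs_lt.2 ((Fc_mem hp).2 0), abs_lt.2 ((Fc_mem hp).2 1)⟩
  have m2 : ∀ {c : ℝ} {p : E}, p ∈ Fc l h 2 c → p 2 = c ∧ |p 0| < 1 / 2 ∧ |p 1| < a := fun hp =>
    ⟨(Fc_mem hp).1, abs_lt.2 ((Fc_mem hp).2 0), abs_lt.2 ((Fc_mem hp).2 1)⟩
  have s1 : ∀ c : ℝ, |c| = a → Fc l h 1 c ⊆ frontier (Om a) := fun c hc p hp =>
    fr_mem a0 (m1 hp).2.1.le (by rw [(m1 hp).1, hc]) (m1 hp).2.2.le (.inl (by rw [(m1 hp).1, hc]))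
  have s2 : ∀ c : ℝ, |c| = a → Fc l h 2 c ⊆ frontier (Om a) := fun c hc p hp =>
    fr_mem a0 (m2 hp).2.1.le (m2 hp).2.2.le (by rw [(m2 hp).1, hc]) (.inr (by rw [(m2 hp).1, hc]))
  have p1 : |a| = a := abs_of_pos a0
  have p2 : |-a| = a := by rw [abs_neg, p1]
  have cv : Continuous fun p => v p ^ 2 := hv.continuous.pow 2
  have iv := D.i2 cv
  have u1 := setIntegral_union (s := Fc l h 1 a) (t := Fc l h 1 (-a))
    (disjoint_left.2 fun p h1 h2 => by linarith [(m1 h1).1, (m1 h2).1]) (Fc_m _ _ _ _)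
    (iv.mono_set (s1 _ p1)) (iv.mono_set (s1 _ p2))
  have u2 := setIntegral_union (s := Fc l h 2 a) (t := Fc l h 2 (-a))
    (disjoint_left.2 fun p h1 h2 => by linarith [(m2 h1).1, (m2 h2).1]) (Fc_m _ _ _ _)
    (iv.mono_set (s2 _ p1)) (iv.mono_set (s2 _ p2))
  have t1 := union_subset (s1 _ p1) (s1 _ p2)
  have t2 := union_subset (s2 _ p1) (s2 _ p2)
  have u3 := setIntegral_union (s := Fc l h 1 a ∪ Fc l h 1 (-a)) (t := Fc l h 2 a ∪ Fc l h 2 (-a))
    (disjoint_left.2 fun p h1 h2 => by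
      have := abs_lt.1 (h2.elim (fun h => (m2 h).2.2) fun h => (m2 h).2.2)
      rcases h1 with h1 | h1 <;> linarith [(m1 h1).1, this.1, this.2])
    ((Fc_m _ _ _ _).union (Fc_m _ _ _ _)) (iv.mono_set t1) (iv.mono_set t2)
  have u4 := setIntegral_mono_set iv (ae_of_all _ fun p => sq_nonneg (v p))
    (union_subset t1 t2).eventuallyLE
  have g1 := setIntegral_mono_set (D.i1 (cG hv)) (ae_of_all _ fun p => sq_nonneg _)
    sub.eventuallyLE
  have n1 : N (Om a) v = ∫ p in Bx l h, v p ^ 2 :=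
    setIntegral_eq_of_subset_of_forall_sdiff_eq_zero Om_o.measurableSet sub fun p hp => by
      rw [z p (not_lt.1 fun h0 => hp.2 ((mem p).2 ⟨h0, hp.1.2.1, hp.1.2.2.1⟩))]; simp
  have cd := hv.continuous_fderiv one_ne_zero
  have c0 := hv.continuous
  have ii : ∀ i : Fin 3, IntegrableOn (fun p : E => v p ^ 2 + 2 * p i * v p *
      fderiv ℝ v p (EuclideanSpace.single i 1)) (Bx l h) := fun i =>
    (D.i1 (by fun_prop)).mono_set sub
  have ig := (D.i1 (cG hv)).mono_set sub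
  have pw := setIntegral_mono_on (((D.i1 cv).mono_set sub).const_mul (2 * β - 2 * β ^ 2 * a))
    ((ig.const_mul a).add (((ii 1).add (ii 2)).const_mul β)) (Bx_o l h).measurableSet
    fun p hp => by
      obtain ⟨-, h1, h2⟩ := (mem p).1 hp
      rw [abs_lt] at h1 h2
      simp only [Pi.add_apply, nsq]
      nlinarith [mul_nonneg a0.le (sq_nonneg (fderiv ℝ v p (EuclideanSpace.single 0 1))),
        mul_nonneg (sub_pos.2 h1.1).le
          (sq_nonneg (fderiv ℝ v p (EuclideanSpace.single 1 1) + β * v p)),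
        mul_nonneg (sub_pos.2 h1.2).le
          (sq_nonneg (fderiv ℝ v p (EuclideanSpace.single 1 1) - β * v p)),
        mul_nonneg (sub_pos.2 h2.1).le
          (sq_nonneg (fderiv ℝ v p (EuclideanSpace.single 2 1) + β * v p)),
        mul_nonneg (sub_pos.2 h2.2).le
          (sq_nonneg (fderiv ℝ v p (EuclideanSpace.single 2 1) - β * v p))]
  rw [integral_add' (ig.const_mul a) (((ii 1).add (ii 2)).const_mul β), integral_const_mul,
    integral_const_mul, integral_const_mul, integral_add' (ii 1) (ii 2), d1, d2] at pw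
  rw [n1, Q]
  refine pw.trans ?_
  rw [u3, u1, u2] at u4
  have e1 : h 1 = a := rfl
  have e2 : h 2 = a := rfl
  have e3 : l 1 = -a := rfl
  have e4 : l 2 = -a := rfl
  rw [e1, e2, e3, e4]
  nlinarith [mul_le_mul_of_nonneg_left g1 a0.le,
    mul_le_mul_of_nonneg_left u4 (mul_nonneg a0.le β0)]

lemma vol_le (a0 : 0 < a) : volume.real (Om a) ≤ 8 * a ^ 2 := by
  refine ENNReal.toReal_le_of_le_ofReal (by positivity) ((measure_mono
    (t := Bx ![-1, -a, -a] ![1, a, a]) fun p hp i => ?_).trans_eq ?_)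
  · fin_cases i
    exacts [abs_lt.1 hp.1, abs_lt.1 hp.2.1, abs_lt.1 hp.2.2.1]
  · rw [vol_Bx, ← ENNReal.ofReal_prod_of_nonneg fun i _ => by fin_cases i <;> simp <;> linarith]
    congr 1
    simp [Fin.prod_univ_three]
    ring

lemma vol_ge (a0 : 0 < a) (a1 : a ≤ 1 / 1000) {x : ℝ} (x0 : 0 ≤ x) (x1 : x ≤ 1) :
    (1 - x) * (191 / 48 * a ^ 2) ≤ volume.real (Om a ∩ {p | x ≤ p 0}) := by
  have h1 : volume.real (Bx ![x, -a, -a] ![1, a, a]) = (1 - x) * (4 * a ^ 2) := by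
    rw [Measure.real, vol_Bx, ← ENNReal.ofReal_prod_of_nonneg fun i _ => by
      fin_cases i <;> simp <;> linarith, ENNReal.toReal_ofReal] <;> simp [Fin.prod_univ_three]
    · ring_nf
    · exact mul_nonneg (mul_nonneg (by linarith) (by linarith)) (by linarith)
  have h2 := vol_Icc ![x, 5 * a / 6, 7 * a / 8] ![1, a, a]
  have h3 : volume.real {p : E | ∀ i, p i ∈ Icc (![x, 5 * a / 6, 7 * a / 8] i) (![1, a, a] i)} =
      (1 - x) * (a ^ 2 / 48) := by
    rw [Measure.real, h2, ← ENNReal.ofReal_prod_of_nonneg fun i _ => by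
      fin_cases i <;> simp <;> linarith, ENNReal.toReal_ofReal] <;> simp [Fin.prod_univ_three]
    · ring_nf
    · exact mul_nonneg (mul_nonneg (by linarith) (by linarith)) (by linarith)
  have f1 : volume (Om a ∩ {p | x ≤ p 0}) ≠ ⊤ :=
    ((Om_bd a0 a1).subset inter_subset_left).measure_lt_top.ne
  have h4 := (measureReal_mono (s₁ := Bx ![x, -a, -a] ![1, a, a]) (s₂ := Om a ∩ {p | x ≤ p 0} ∪
    {p : E | ∀ i, p i ∈ Icc (![x, 5 * a / 6, 7 * a / 8] i) (![1, a, a] i)}) (fun p hp => by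
      have b0 : p 0 ∈ Ioo x 1 := hp 0
      have b1 : p 1 ∈ Ioo (-a) a := hp 1
      have b2 : p 2 ∈ Ioo (-a) a := hp 2
      have e := abs_of_nonneg (x0.trans b0.1.le)
      by_cases h : 3 * p 1 + 4 * p 2 + a * (|p 0| - 1 / 2) < 7 * a
      · exact .inl ⟨⟨by rw [e]; exact b0.2, abs_lt.2 b1, abs_lt.2 b2, h⟩, b0.1.le⟩
      · rw [e] at h
        have := mul_lt_mul_of_pos_left b0.2 a0
        refine .inr fun i => ?_
        fin_cases i
        exacts [⟨b0.1.le, b0.2.le⟩, ⟨show 5 * a / 6 ≤ p 1 by linarith [b2.2], b1.2.le⟩,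
          ⟨show 7 * a / 8 ≤ p 2 by linarith [b1.2], b2.2.le⟩])
    (measure_union_ne_top f1 (by
      rw [h2]; exact ENNReal.prod_ne_top fun _ _ => ENNReal.ofReal_ne_top))).trans
    (measureReal_union_le _ _)
  linarith

lemma upper (a0 : 0 < a) (a1 : a ≤ 1 / 1000) (β0 : 0 ≤ β) {K : ℝ} (hK : ∀ x, deriv th x ^ 2 ≤ K) :
    ∃ f, ContDiff ℝ 1 f ∧ 0 < N (Om a) f ∧ a * Q (Om a) β f ≤
      (a * (11 * (8 * 40000 ^ 2 * K + 4 * β)) + β * (2 - 1 / 250)) * N (Om a) f := by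
  have D := Om_D a0 a1
  have K0 : 0 ≤ K := (sq_nonneg _).trans (hK 0)
  have t := tk_c 40000 39000
  have o : ContDiff ℝ 1 fun _ : E => (1 : ℝ) := contDiff_const
  set f := sm (fun x => th (40000 * x - 39000)) fun _ => 1 with hf
  have c : ContDiff ℝ 1 f := sm_c t o
  have cv : Continuous fun p => f p ^ 2 := c.continuous.pow 2
  have mm : ∀ x : ℝ, MeasurableSet {p : E | x ≤ p 0} := fun x =>
    (isClosed_le continuous_const c0.continuous).measurableSet
  have n1 : (1 - 39001 / 40000) * (191 / 48 * a ^ 2) ≤ N (Om a) f := by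
    refine (vol_ge a0 a1 (by norm_num) (by norm_num)).trans (le_trans (le_of_eq ?_)
      (setIntegral_mono_set (D.i1 cv) (ae_of_all _ fun p => sq_nonneg _)
        (inter_subset_left (t := {p | 39001 / 40000 ≤ p 0})).eventuallyLE))
    rw [setIntegral_congr_fun (Om_o.measurableSet.inter (mm _)) (g := fun _ => 1) fun p hp => by
      have : 39001 / 40000 ≤ p 0 := hp.2
      simp only [f, sm]; rw [th1 (by linarith)]; simp]
    simp
  have g1 : ∫ p in Om a, ‖fderiv ℝ f p‖ ^ 2 ≤ 40000 ^ 2 * K * (8 * a ^ 2) := by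
    refine (setIntegral_mono_on (g := fun _ => 40000 ^ 2 * K) (D.i1 (cG c))
      (D.i1 continuous_const) Om_o.measurableSet fun p _ => ?_).trans ?_
    · have := ims0 t o p
      rw [(tk_d _ _ _).deriv, fderiv_fun_const] at this
      simp only [Pi.zero_apply, norm_zero] at this
      nlinarith [hK (40000 * p 0 - 39000), sq_nonneg ‖fderiv ℝ (cm (fun x => th (40000 * x - 39000))
        fun _ => 1) p‖]
    · rw [setIntegral_const, smul_eq_mul, mul_comm]
      exact mul_le_mul_of_nonneg_left (vol_le a0) (by positivity)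
  have s1 : ∫ p in frontier (Om a), f p ^ 2 ∂μHE[2] ≤ 4 * a ^ 2 + (1 - 39 / 40) *
      (8 * a - 7 * a * (39 / 40 - 1 / 2) / 12 + 1001 / 1000 * (5 * a / 24)) := by
    have fl := fr_le a0 a1 (x := 39 / 40) (by norm_num) (by norm_num)
    rw [setIntegral_eq_of_subset_of_forall_sdiff_eq_zero isClosed_frontier.measurableSet
      (inter_subset_left (t := {p | 39 / 40 ≤ p 0})) fun p hp => by
        have : p 0 < 39 / 40 := not_le.1 fun h => hp.2 ⟨hp.1, h⟩
        simp only [f, sm]; rw [th0 (by linarith)]; simp]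
    refine (Real.le_norm_self _).trans ((norm_setIntegral_le_of_norm_le_const (C := 1)
      (fl.trans_lt ENNReal.ofReal_lt_top) fun p _ => ?_).trans ?_)
    · simp only [f, sm, mul_one, Real.norm_eq_abs, abs_pow, sq_abs]
      exact sin_sq_le_one _
    · rw [one_mul]
      exact ENNReal.toReal_le_of_le_ofReal (by nlinarith) fl
  have a2 : 0 < a ^ 2 := by positivity
  refine ⟨f, c, lt_of_lt_of_le (by positivity) n1, le_trans ?_
    (mul_le_mul_of_nonneg_left n1 (by positivity))⟩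
  rw [Q]
  have := mul_le_mul_of_nonneg_left g1 a0.le
  have := mul_le_mul_of_nonneg_left s1 (mul_nonneg a0.le β0)
  nlinarith [mul_nonneg (mul_nonneg a0.le a2.le) K0, mul_nonneg (mul_nonneg a0.le a2.le) β0,
    mul_nonneg a2.le β0]

theorem gap (β0 : 0 < β) {η : ℝ} (η0 : 0 < η) (η1 : η ≤ 1) : ∃ a, 0 < a ∧ a ≤ 1 / 1000 ∧
    ∃ w w', (∀ γ, Pair (Om a) γ w w') ∧ ∀ v, ContDiff ℝ 1 v → 0 < N (Om a) v →
      Q (Om a) β w / N (Om a) w ≤ Q (Om a) β v / N (Om a) v + η := by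
  obtain ⟨K, hK⟩ := exK
  have K0 : 0 ≤ K := (sq_nonneg _).trans (hK 0)
  set C := 11 * (8 * 40000 ^ 2 * K + 4 * β) with hC
  set M := 1 + 512 * K * (1 + 32 * K) / η with hM
  have M1 : 1 ≤ M := le_add_of_nonneg_right (by positivity)
  have T0 : 0 < C + M + 2 * β ^ 2 := by positivity
  set a := min (1 / 1000) (β / 250 / (C + M + 2 * β ^ 2)) with ha
  have a0 : 0 < a := by positivity
  have a1 : a ≤ 1 / 1000 := min_le_left _ _
  have a2 : a * (C + M + 2 * β ^ 2) ≤ β / 250 := (le_div_iff₀ T0).1 (min_le_right _ _)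
  have D := Om_D a0 a1
  set S := {t | ∃ v, ContDiff ℝ 1 v ∧ 0 < N (Om a) v ∧ t = Q (Om a) β v / N (Om a) v} with hS
  have bb : BddBelow S := ⟨0, fun t ⟨v, _, h, e⟩ => e ▸ div_nonneg (Q0 _ β0.le _) h.le⟩
  have low : ∀ v, ContDiff ℝ 1 v → sInf S * N (Om a) v ≤ Q (Om a) β v := fun v hv => by
    rcases (N0 (Om a) v).eq_or_lt with h | h
    · rw [← h, mul_zero]; exact Q0 _ β0.le _
    · exact (le_div_iff₀ h).1 (csInf_le bb ⟨v, hv, h, rfl⟩)
  obtain ⟨f, cf, f0, hf⟩ := upper a0 a1 β0.le hK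
  have up : a * sInf S ≤ a * C + β * (2 - 1 / 250) :=
    le_of_mul_le_mul_right (by nlinarith [mul_le_mul_of_nonneg_left (low f cf) a0.le]) f0
  obtain ⟨_, ⟨u, cu, u0, rfl⟩, hu⟩ := exists_lt_of_csInf_lt (s := S) ⟨_, f, cf, f0, rfl⟩
    (lt_add_of_pos_right _ (show 0 < η / 4 by positivity))
  obtain ⟨w, cw, w0, hw, z⟩ := loc D hK η0 η1 M1
    (by rw [hM, mul_add η, mul_div_cancel₀ _ η0.ne']; linarith) low
    (fun v hv z => le_of_mul_le_mul_left (le_trans (by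
      rw [← mul_assoc]
      exact mul_le_mul_of_nonneg_right (by linarith) (N0 _ _)) (bar a0 a1 β0.le hv z)) a0)
    cu u0 ((div_le_iff₀ u0).1 hu.le)
  refine ⟨a, a0, a1, w, _, fun γ => pair D Om_R cw w0 z, fun v hv v0 => ?_⟩
  have := (div_le_iff₀ w0).2 hw
  have := (le_div_iff₀ v0).2 (low v hv)
  linarith

end Pool.Agent.H.MP_d01728_an
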