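import Pool.Agent.H.MP_d01728_an.F

set_option autoImplicit false
open MeasureTheory Set Filter Topology Metric Function Real

namespace Pool.Agent.H.MP_d01728_an

variable {Ω : Set E} {β : ℝ}

lemma conv : ∃ c : ℝ, 0 < c ∧ ∀ (S : Set E) (g : E → ℝ),
    ∫ x in S, g x ∂μH[((3 : ℕ) : ℝ) - 1] = c * ∫ x in S, g x ∂μHE[2] := by
  have h := Measure.addHaarScalarFactor_volume_hausdorffMeasure_ne_zero 2
  refine ⟨_, inv_pos.2 (NNReal.coe_pos.2 (pos_iff_ne_zero.2 h)), fun S g => ?_⟩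
  rw [Measure.euclideanHausdorffMeasure_def, Measure.restrict_smul, integral_smul_nnreal_measure,
    NNReal.smul_def, smul_eq_mul, inv_mul_cancel_left₀ (NNReal.coe_ne_zero.2 h),
    show ((3 : ℕ) : ℝ) - 1 = ((2 : ℕ) : ℝ) by norm_num]

lemma hom {v : E → ℝ} (hv : ContDiff ℝ 1 v) (c : ℝ) :
    N Ω (c • v) = c ^ 2 * N Ω v ∧ Q Ω β (c • v) = c ^ 2 * Q Ω β v := by
  have : ∀ p, fderiv ℝ (c • v) p = c • fderiv ℝ v p := fun p =>
    fderiv_const_smul (hv.differentiable one_ne_zero p) c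
  simp only [N, Q, this, norm_smul, Pi.smul_apply, smul_eq_mul, mul_pow, integral_const_mul,
    Real.norm_eq_abs, sq_abs]
  exact ⟨trivial, by ring⟩

lemma bdd2 (D : Dom Ω) (β0 : 0 ≤ β) {u w : E → ℝ} (hu : ContDiff ℝ 1 u) (hw : ContDiff ℝ 1 w)
    (pos : ∀ a b : ℝ, a ≠ 0 ∨ b ≠ 0 → 0 < N Ω (a • u + b • w)) :
    ∃ B, ∀ a b : ℝ, Q Ω β (a • u + b • w) ≤ B * N Ω (a • u + b • w) := by
  have cu := hu.continuous
  have cw := hw.continuous
  have s : Continuous fun p => u p ^ 2 := cu.pow 2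
  have s' : Continuous fun p => w p ^ 2 := cw.pow 2
  have s'' : Continuous fun p => u p * w p := cu.mul cw
  set B := ∫ p in Ω, u p * w p with hB
  have e : ∀ a b : ℝ, N Ω (a • u + b • w) = a ^ 2 * N Ω u + 2 * a * b * B + b ^ 2 * N Ω w := by
    intro a b
    rw [N, N, N, hB, ← integral_const_mul, ← integral_const_mul, ← integral_const_mul,
      ← integral_add ((D.i1 s).const_mul _) ((D.i1 s'').const_mul _),
      ← integral_add (D.i1 (by fun_prop)) ((D.i1 s').const_mul _)]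
    congr 1; ext p; simp only [Pi.add_apply, Pi.smul_apply, smul_eq_mul]; ring
  have q : ∀ a b : ℝ, Q Ω β (a • u + b • w) ≤ 2 * a ^ 2 * Q Ω β u + 2 * b ^ 2 * Q Ω β w := by
    intro a b
    have c : ContDiff ℝ 1 (a • u + b • w) := (hu.const_smul a).add (hw.const_smul b)
    have h1 := integral_mono (D.i1 (cG c)) (((D.i1 (cG hu)).const_mul (2 * a ^ 2)).add
      ((D.i1 (cG hw)).const_mul (2 * b ^ 2))) fun p => by
        have h : fderiv ℝ (a • u + b • w) p = _ :=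
          (((hu.differentiable one_ne_zero p).hasFDerivAt.const_smul a).add
            ((hw.differentiable one_ne_zero p).hasFDerivAt.const_smul b)).fderiv
        have := norm_add_le (a • fderiv ℝ u p) (b • fderiv ℝ w p)
        rw [norm_smul, norm_smul, Real.norm_eq_abs, Real.norm_eq_abs] at this
        simp only [h, Pi.add_apply]
        refine (pow_le_pow_left₀ (norm_nonneg _) this 2).trans ?_
        rw [← sq_abs a, ← sq_abs b]
        nlinarith [sq_nonneg (|a| * ‖fderiv ℝ u p‖ - |b| * ‖fderiv ℝ w p‖)]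
    have h2 := integral_mono (D.i2 (c.continuous.pow 2)) (((D.i2 s).const_mul (2 * a ^ 2)).add
      ((D.i2 s').const_mul (2 * b ^ 2))) fun p => by
        simp only [Pi.add_apply, Pi.smul_apply, smul_eq_mul, Pi.pow_apply]
        nlinarith [sq_nonneg (a * u p - b * w p)]
    rw [integral_add' ((D.i1 (cG hu)).const_mul _) ((D.i1 (cG hw)).const_mul _), integral_const_mul,
      integral_const_mul] at h1
    rw [integral_add' ((D.i2 s).const_mul _) ((D.i2 s').const_mul _), integral_const_mul,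
      integral_const_mul] at h2
    have := mul_le_mul_of_nonneg_left h2 β0
    simp only [Q, Pi.pow_apply] at *
    linarith
  have A0 : 0 < N Ω u := by simpa using pos 1 0 (.inl one_ne_zero)
  have C0 := N0 Ω w
  have G0 : 0 < N Ω u * N Ω w - B ^ 2 := by
    have := pos (-B) (N Ω u) (.inr A0.ne')
    rw [e] at this
    exact pos_of_mul_pos_left (b := N Ω u) (by linarith) A0.le
  have q1 := Q0 Ω β0 u
  have q2 := Q0 Ω β0 w
  refine ⟨2 * (Q Ω β u + Q Ω β w) * (N Ω u + N Ω w) / (N Ω u * N Ω w - B ^ 2), fun a b => ?_⟩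
  rw [div_mul_eq_mul_div, le_div_iff₀ G0, e]
  have k : (N Ω u * N Ω w - B ^ 2) * (a ^ 2 + b ^ 2) ≤
      (N Ω u + N Ω w) * (a ^ 2 * N Ω u + 2 * a * b * B + b ^ 2 * N Ω w) := by
    nlinarith [sq_nonneg (N Ω u * a + B * b), sq_nonneg (B * a + N Ω w * b)]
  have k2 : Q Ω β (a • u + b • w) ≤ 2 * (Q Ω β u + Q Ω β w) * (a ^ 2 + b ^ 2) := by
    nlinarith [q a b, mul_nonneg q1 (sq_nonneg b), mul_nonneg q2 (sq_nonneg a)]
  nlinarith [mul_le_mul_of_nonneg_right k2 G0.le,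
    mul_le_mul_of_nonneg_left k (show 0 ≤ 2 * (Q Ω β u + Q Ω β w) by positivity)]

lemma mz (x y : ℝ) : ∃ a b : ℝ, (a ≠ 0 ∨ b ≠ 0) ∧ a * x + b * y = 0 := by
  by_cases h : x = 0
  · exact ⟨1, 0, .inl one_ne_zero, by simp [h]⟩
  · exact ⟨-y, x, .inr h, by ring⟩

def Rs (Ω : Set E) (β : ℝ) (V : Submodule ℝ (E → ℝ)) : Set ℝ :=
  {q | ∃ v ∈ V, v ≠ 0 ∧ q = Q Ω β v / N Ω v}

def Ls (Ω : Set E) (β : ℝ) (k : ℕ) : Set ℝ := {r | ∃ V : Submodule ℝ (E → ℝ),
  Module.finrank ℝ V = k ∧ (∀ v ∈ V, ContDiff ℝ 1 v) ∧ (∀ v ∈ V, v ≠ 0 → 0 < N Ω v) ∧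
    r = sSup (Rs Ω β V)}

lemma Ls_b (β0 : 0 ≤ β) (k : ℕ) : BddBelow (Ls Ω β k) :=
  ⟨0, fun _ ⟨_, _, _, _, e⟩ => e ▸ Real.sSup_nonneg fun _ ⟨v, _, _, e⟩ =>
    e ▸ div_nonneg (Q0 _ β0 v) (N0 _ v)⟩

lemma Rs1 {V : Submodule ℝ (E → ℝ)} {v : E → ℝ} (hv : ContDiff ℝ 1 v) (m : v ∈ V) (v0 : v ≠ 0)
    (h : ∀ w ∈ V, ∃ c : ℝ, c • v = w) : sSup (Rs Ω β V) = Q Ω β v / N Ω v := by
  rw [← csSup_singleton (Q Ω β v / N Ω v)]
  congr 1
  refine subset_antisymm ?_ (singleton_subset_iff.2 ⟨v, m, v0, rfl⟩)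
  rintro _ ⟨w, hw, w0, rfl⟩
  obtain ⟨c, rfl⟩ := h w hw
  have c0 : c ≠ 0 := fun h => w0 (by simp [h])
  rw [(hom (β := β) hv c).1, (hom hv c).2, mul_div_mul_left _ _ (pow_ne_zero 2 c0)]
  rfl

lemma Ls1 {v : E → ℝ} (hv : ContDiff ℝ 1 v) (h : 0 < N Ω v) : Q Ω β v / N Ω v ∈ Ls Ω β 1 := by
  have v0 : v ≠ 0 := fun e => by simp [e, N] at h
  refine ⟨Submodule.span ℝ {v}, finrank_span_singleton v0, fun w hw => ?_, fun w hw w0 => ?_,
    (Rs1 hv (Submodule.mem_span_singleton_self v) v0 fun w => Submodule.mem_span_singleton.1).symm⟩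
  · obtain ⟨c, rfl⟩ := Submodule.mem_span_singleton.1 hw
    exact hv.const_smul c
  · obtain ⟨c, rfl⟩ := Submodule.mem_span_singleton.1 hw
    have c0 : c ≠ 0 := fun h => w0 (by simp [h])
    rw [(hom (β := 0) hv c).1]
    positivity

lemma Ls1' {r : ℝ} (h : r ∈ Ls Ω β 1) : ∃ v, ContDiff ℝ 1 v ∧ 0 < N Ω v ∧ r = Q Ω β v / N Ω v := by
  obtain ⟨V, h1, h2, h3, rfl⟩ := h
  obtain ⟨⟨v, m⟩, v0, h⟩ := finrank_eq_one_iff'.1 h1
  have v1 : v ≠ 0 := fun e => v0 (Subtype.ext e)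
  exact ⟨v, h2 v m, h3 v m v1, Rs1 (h2 v m) m v1 fun w hw =>
    (h ⟨w, hw⟩).imp fun c e => congrArg Subtype.val e⟩

lemma Ls2 {w w' : E → ℝ} (P : Pair Ω β w w') : Q Ω β w / N Ω w ∈ Ls Ω β 2 := by
  obtain ⟨c, c', w0, -, -, e⟩ := P
  have e' : ∀ a b : ℝ, N Ω (a • w + b • w') = (a ^ 2 + b ^ 2) * N Ω w ∧
      Q Ω β (a • w + b • w') = (a ^ 2 + b ^ 2) * Q Ω β w := e
  have nz : ∀ a b : ℝ, a • w + b • w' ≠ 0 → 0 < a ^ 2 + b ^ 2 := fun a b h => by
    by_contra h'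
    have ha : a = 0 := by nlinarith [sq_nonneg a, sq_nonneg b]
    have hb : b = 0 := by nlinarith [sq_nonneg a, sq_nonneg b]
    simp [ha, hb] at h
  have li : LinearIndependent ℝ ![w, w'] := LinearIndependent.pair_iff.2 fun a b h => by
    have := (e' a b).1
    rw [h] at this
    have h2 : a ^ 2 + b ^ 2 = 0 := by simpa [N, show ∫ x in Ω, w x ^ 2 ≠ 0 from w0.ne'] using this
    constructor <;> nlinarith [sq_nonneg a, sq_nonneg b]
  have r : range ![w, w'] = {w, w'} := by simp [pair_comm]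
  refine ⟨Submodule.span ℝ {w, w'}, by rw [← r, finrank_span_eq_card li]; simp, fun v hv => ?_,
    fun v hv v0 => ?_, ?_⟩
  · obtain ⟨a, b, rfl⟩ := Submodule.mem_span_pair.1 hv
    exact (c.const_smul a).add (c'.const_smul b)
  · obtain ⟨a, b, rfl⟩ := Submodule.mem_span_pair.1 hv
    rw [(e' a b).1]
    exact mul_pos (nz a b v0) w0
  · rw [← csSup_singleton (Q Ω β w / N Ω w)]
    congr 1
    refine subset_antisymm (singleton_subset_iff.2 ⟨w, Submodule.subset_span (by simp),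
      fun e => by simp [e, N] at w0, rfl⟩) ?_
    rintro _ ⟨v, hv, v0, rfl⟩
    obtain ⟨a, b, rfl⟩ := Submodule.mem_span_pair.1 hv
    rw [(e' a b).1, (e' a b).2, mul_div_mul_left _ _ (nz a b v0).ne']
    rfl

lemma Ls2' {a : ℝ} (a0 : 0 < a) (a1 : a ≤ 1 / 1000) (β0 : 0 ≤ β) {r : ℝ} (h : r ∈ Ls (Om a) β 2) :
    1 / 72 ≤ r := by
  have D := Om_D a0 a1
  obtain ⟨V, h1, h2, h3, rfl⟩ := h
  have : Module.Finite ℝ V := Module.finite_of_finrank_eq_succ h1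
  let b := Module.finBasisOfFinrankEq ℝ V h1
  have li := LinearIndependent.pair_iff.1 (show LinearIndependent ℝ ![b 0, b 1] by
    convert b.linearIndependent with i
    ext1 i; fin_cases i <;> rfl)
  have m : ∀ s t : ℝ, s • (b 0).1 + t • (b 1).1 ∈ V := fun s t => (s • b 0 + t • b 1).2
  have nz : ∀ s t : ℝ, s ≠ 0 ∨ t ≠ 0 → s • (b 0).1 + t • (b 1).1 ≠ 0 := fun s t h e =>
    h.elim (fun h => h (li s t (Subtype.ext e)).1) fun h => h (li s t (Subtype.ext e)).2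
  have c0 := h2 _ (b 0).2
  have c1 := h2 _ (b 1).2
  obtain ⟨B, hB⟩ := bdd2 D β0 c0 c1 fun s t h => h3 _ (m s t) (nz s t h)
  obtain ⟨s, t, h, e⟩ := mz (∫ p in Om a, (b 0).1 p) (∫ p in Om a, (b 1).1 p)
  have n0 := h3 _ (m s t) (nz s t h)
  have := poinc (μ := volume) Om_o (Om_cv a0) D.bd ⟨0, Om_0 a0⟩ (Om_d a1) (h2 _ (m s t)) (by
    rw [← e, ← integral_const_mul, ← integral_const_mul, ← integral_add
      ((D.i1 c0.continuous).const_mul _) ((D.i1 c1.continuous).const_mul _)]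
    rfl)
  refine le_csSup_of_le ⟨B, ?_⟩ ⟨_, m s t, nz s t h, rfl⟩ ?_
  · rintro _ ⟨v, hv, v0, rfl⟩
    have := b.sum_repr ⟨v, hv⟩
    rw [Fin.sum_univ_two] at this
    have e : _ • (b 0).1 + _ • (b 1).1 = v := congrArg Subtype.val this
    rw [div_le_iff₀ (h3 v hv v0), ← e]
    exact hB _ _
  · rw [le_div_iff₀ n0, Q, N]
    rw [finrank_euclideanSpace_fin] at this
    have := mul_nonneg β0 (integral_nonneg (μ := μHE[2].restrict (frontier (Om a)))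
      fun p => sq_nonneg ((s • (b 0).1 + t • (b 1).1) p))
    linarith

theorem nomono : ∃ (a α : ℝ), 0 < a ∧ a ≤ 1 / 1000 ∧ 0 < α ∧ α < 1 ∧
    sInf (Ls (Om a) 1 2) - sInf (Ls (Om a) 1 1) < sInf (Ls (Om a) α 2) - sInf (Ls (Om a) α 1) := by
  obtain ⟨a, a0, a1, w, w', P, h⟩ := gap one_pos (η := 1 / 200) (by norm_num) (by norm_num)
  have o : ContDiff ℝ 1 fun _ : E => (1 : ℝ) := contDiff_const
  have n1 : 0 < N (Om a) fun _ => 1 := by
    simpa [N, Measure.real] using ENNReal.toReal_pos (Om_o.measure_pos volume ⟨0, Om_0 a0⟩).ne'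
      (Om_bd a0 a1).measure_lt_top.ne
  set T := (Q (Om a) 1 fun _ => 1) / N (Om a) fun _ => 1 with hT
  have T0 : 0 ≤ T := div_nonneg (Q0 _ zero_le_one _) n1.le
  have α0 : 0 < 1 / (200 * (T + 1)) := by positivity
  refine ⟨a, _, a0, a1, α0, by rw [div_lt_one (by positivity)]; linarith, ?_⟩
  have b1 := csInf_le (Ls_b zero_le_one 2) (Ls2 (P 1))
  have b2 : Q (Om a) 1 w / N (Om a) w - 1 / 200 ≤ sInf (Ls (Om a) 1 1) :=
    le_csInf ⟨_, Ls1 o n1⟩ fun r hr => by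
      obtain ⟨v, c, v0, rfl⟩ := Ls1' hr
      linarith [h v c v0]
  have b3 := le_csInf ⟨_, Ls2 (P _)⟩ fun r hr => Ls2' a0 a1 α0.le (r := r) hr
  have b4 := csInf_le (Ls_b α0.le 1) (Ls1 o n1)
  have b5 : (Q (Om a) (1 / (200 * (T + 1))) fun _ => 1) / (N (Om a) fun _ => 1) =
      1 / (200 * (T + 1)) * T := by
    rw [hT, ← mul_div_assoc]; simp [Q]
  have b6 : 1 / (200 * (T + 1)) * T ≤ 1 / 200 := by
    rw [div_mul_eq_mul_div, div_le_iff₀ (by positivity)]; linarith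
  linarith

end Pool.Agent.H.MP_d01728_an
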