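import Pool.Agent.H.MP_d01728_an.G

set_option autoImplicit false
open MeasureTheory Set Filter Topology Metric Function Real

namespace Pool.Agent.H.MP_d01728_an

def A0 (Ω : Set E) (β : ℝ) : Set ℝ :=
  {t | ∃ u : E → ℝ, ContDiff ℝ 1 u ∧ 0 < N Ω u ∧ t = Q Ω β u / N Ω u}

def A1 (Ω : Set E) (β : ℝ) : Set ℝ :=
  {t | ∃ u w : E → ℝ, ContDiff ℝ 1 u ∧ ContDiff ℝ 1 w ∧
    0 < N Ω u * N Ω w - (∫ x in Ω, u x * w x) ^ 2 ∧
    IsLUB {s : ℝ | ∃ a b : ℝ, (a ≠ 0 ∨ b ≠ 0) ∧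
      s = Q Ω β (fun y => a * u y + b * w y) / N Ω (fun y => a * u y + b * w y)} t}

noncomputable def n1 (D : ℝ) (u : ℝ → ℝ) : ℝ := ∫ x in Ioo (-(D / 2)) (D / 2), u x ^ 2

noncomputable def q1 (D α : ℝ) (u : ℝ → ℝ) : ℝ :=
  (∫ x in Ioo (-(D / 2)) (D / 2), deriv u x ^ 2) + α * (u (-(D / 2)) ^ 2 + u (D / 2) ^ 2)

def B0 (D α : ℝ) : Set ℝ := {t | ∃ u : ℝ → ℝ, ContDiff ℝ 1 u ∧ 0 < n1 D u ∧ t = q1 D α u / n1 D u}

def B1 (D α : ℝ) : Set ℝ :=
  {t | ∃ u w : ℝ → ℝ, ContDiff ℝ 1 u ∧ ContDiff ℝ 1 w ∧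
    0 < n1 D u * n1 D w - (∫ x in Ioo (-(D / 2)) (D / 2), u x * w x) ^ 2 ∧
    IsLUB {s : ℝ | ∃ a b : ℝ, (a ≠ 0 ∨ b ≠ 0) ∧
      s = q1 D α (fun y => a * u y + b * w y) / n1 D (fun y => a * u y + b * w y)} t}

lemma A01 {β : ℝ} (β0 : 0 < β) : ∃ a, 0 < a ∧ a ≤ 1 / 1000 ∧ ∃ l0 l1, IsGLB (A0 (Om a) β) l0 ∧
    IsGLB (A1 (Om a) β) l1 ∧ l1 - l0 ≤ 1 / 100 := by
  obtain ⟨a, a0, a1, w, w', P, h⟩ := gap β0 (η := 1 / 100) (by norm_num) (by norm_num)
  obtain ⟨c, c', w0, e0, z, e⟩ := P β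
  have m1 : Q (Om a) β w / N (Om a) w ∈ A1 (Om a) β := by
    refine ⟨w, w', c, c', by simpa [z, e0] using w0.ne', ?_⟩
    refine (congrArg (IsLUB · _) (?_ : _ = ({Q (Om a) β w / N (Om a) w} : Set ℝ))).mpr
      isLUB_singleton
    refine subset_antisymm ?_ (singleton_subset_iff.2 ⟨1, 0, .inl one_ne_zero, by simp⟩)
    rintro _ ⟨s, t, hst, rfl⟩
    have : 0 < s ^ 2 + t ^ 2 := by rcases hst with h | h <;> positivity
    rw [(e s t).1, (e s t).2, mul_div_mul_left _ _ this.ne']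
    rfl
  have b0 : BddBelow (A0 (Om a) β) :=
    ⟨0, fun t ⟨v, _, h, e⟩ => e ▸ div_nonneg (Q0 _ β0.le _) h.le⟩
  have b1 : BddBelow (A1 (Om a) β) := ⟨0, fun t ⟨u, v, _, _, _, h⟩ =>
    (div_nonneg (Q0 _ β0.le _) (N0 _ _)).trans (h.1 ⟨1, 0, .inl one_ne_zero, rfl⟩)⟩
  have n0 : (A0 (Om a) β).Nonempty := ⟨_, w, c, w0, rfl⟩
  refine ⟨a, a0, a1, _, _, isGLB_csInf n0 b0, isGLB_csInf ⟨_, m1⟩ b1, ?_⟩
  have := csInf_le b1 m1
  have : Q (Om a) β w / N (Om a) w - 1 / 100 ≤ sInf (A0 (Om a) β) :=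
    le_csInf n0 fun r ⟨v, c, v0, e⟩ => by linarith [h v c v0]
  linarith

lemma iio {D : ℝ} (D0 : 0 ≤ D) (f : ℝ → ℝ) :
    ∫ x in Ioo (-(D / 2)) (D / 2), f x = ∫ x in (-(D / 2))..(D / 2), f x := by
  rw [intervalIntegral.integral_of_le (by linarith), integral_Ioc_eq_integral_Ioo]

lemma B01 {D : ℝ} (D1 : 1 ≤ D) (D3 : D ≤ 3) : ∃ m0 m1, IsGLB (B0 D (1 / 100)) m0 ∧
    IsGLB (B1 D (1 / 100)) m1 ∧ 1 / 100 < m1 - m0 := by
  have D0 : 0 < D := by linarith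
  have n0 : ∀ u, 0 ≤ n1 D u := fun u => integral_nonneg fun _ => sq_nonneg _
  have g0 : ∀ u : ℝ → ℝ, 0 ≤ ∫ x in Ioo (-(D / 2)) (D / 2), deriv u x ^ 2 := fun u =>
    integral_nonneg fun _ => sq_nonneg _
  have q0 : ∀ u, 0 ≤ q1 D (1 / 100) u := fun u => add_nonneg (g0 u) (by positivity)
  have ii : ∀ {f : ℝ → ℝ}, Continuous f → IntegrableOn f (Ioo (-(D / 2)) (D / 2)) := fun c =>
    intb (isBounded_Ioo _ _) (by simp) c
  have e : ∀ {u w : ℝ → ℝ}, Continuous u → Continuous w → ∀ a b : ℝ,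
      n1 D (fun y => a * u y + b * w y) = a ^ 2 * n1 D u +
      2 * a * b * (∫ x in Ioo (-(D / 2)) (D / 2), u x * w x) + b ^ 2 * n1 D w := by
    intro u w cu cw a b
    rw [n1, n1, n1, ← integral_const_mul, ← integral_const_mul, ← integral_const_mul,
      ← integral_add (ii (by fun_prop)) (ii (by fun_prop)),
      ← integral_add (ii (by fun_prop)) (ii (by fun_prop))]
    congr 1; ext p; ring
  have x0 : n1 D (fun _ => 1) = D := by simp [n1, D0.le]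
  have x1 : ∫ x in Ioo (-(D / 2)) (D / 2), (1 : ℝ) * x = 0 := by
    rw [iio D0.le]; simp
  have x2 : n1 D (fun x => x) = D ^ 3 / 12 := by
    rw [n1, iio D0.le, integral_pow]; ring
  have m0 : 2 / 100 / D ∈ B0 D (1 / 100) :=
    ⟨fun _ => 1, contDiff_const, by rwa [x0], by rw [x0]; simp [q1]; ring⟩
  have b0 : BddBelow (B0 D (1 / 100)) := ⟨0, fun t ⟨v, _, h, e⟩ => e ▸ div_nonneg (q0 _) h.le⟩
  have ne : (B1 D (1 / 100)).Nonempty := by
    refine ⟨_, fun _ => 1, fun x => x, contDiff_const, contDiff_id, by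
      rw [x0, x1, x2]; simpa using by positivity,
      isLUB_csSup ⟨_, 1, 0, .inl one_ne_zero, rfl⟩ ⟨13, ?_⟩⟩
    rintro _ ⟨a, b, -, rfl⟩
    refine div_le_of_le_mul₀ (n0 _) (by norm_num) ?_
    have d : ∀ x : ℝ, deriv (fun y : ℝ => a * 1 + b * y) x = b := fun x => by
      simp
    rw [e continuous_const continuous_id', x0, x1, x2, q1]
    simp only [d, setIntegral_const, smul_eq_mul, Real.volume_real_Ioo]
    rw [max_eq_left (by linarith)]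
    have h1 : D ≤ D ^ 2 := by nlinarith
    have h2 : D ^ 2 ≤ D ^ 3 := by nlinarith
    nlinarith [mul_le_mul_of_nonneg_left h1 (sq_nonneg b), mul_le_mul_of_nonneg_left h2
      (sq_nonneg b), mul_le_mul_of_nonneg_left D1 (sq_nonneg a), sq_nonneg a,
      mul_nonneg (sq_nonneg b) D0.le]
  have lb : ∀ t ∈ B1 D (1 / 100), 1 / 18 ≤ t := by
    rintro t ⟨u, w, cu, cw, G, h⟩
    obtain ⟨a, b, hab, z⟩ := mz (∫ x in Ioo (-(D / 2)) (D / 2), u x)
      (∫ x in Ioo (-(D / 2)) (D / 2), w x)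
    refine le_trans ?_ (h.1 ⟨a, b, hab, rfl⟩)
    have c : ContDiff ℝ 1 fun y => a * u y + b * w y :=
      (contDiff_const.mul cu).add (contDiff_const.mul cw)
    have p := poinc (μ := volume) isOpen_Ioo (convex_Ioo (-(D / 2)) (D / 2)) (isBounded_Ioo _ _)
      ⟨0, by constructor <;> linarith⟩ (D := 3) (fun x hx y hy => by
        rw [Real.norm_eq_abs, abs_le]; constructor <;> linarith [hx.1, hx.2, hy.1, hy.2]) c (by
        rw [← z, ← integral_const_mul, ← integral_const_mul, ← integral_add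
          ((ii cu.continuous).const_mul _) ((ii cw.continuous).const_mul _)])
    simp only [← norm_deriv_eq_norm_fderiv, Real.norm_eq_abs, sq_abs, Module.finrank_self] at p
    have pos : 0 < n1 D fun y => a * u y + b * w y := by
      rw [e cu.continuous cw.continuous]
      set B := ∫ x in Ioo (-(D / 2)) (D / 2), u x * w x
      have h1 := n0 u
      have h2 := n0 w
      have : 0 < a ^ 2 + b ^ 2 := by rcases hab with h | h <;> positivity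
      by_contra! hc
      nlinarith [sq_nonneg (n1 D u * a + B * b), sq_nonneg (B * a + n1 D w * b), mul_pos G this,
        mul_nonneg (add_nonneg h1 h2) (neg_nonneg.2 hc)]
    rw [le_div_iff₀ pos, q1, n1]
    nlinarith [sq_nonneg (a * u (-(D / 2)) + b * w (-(D / 2))),
      sq_nonneg (a * u (D / 2) + b * w (D / 2))]
  refine ⟨_, _, isGLB_csInf ⟨_, m0⟩ b0, isGLB_csInf ne ⟨_, lb⟩, ?_⟩
  have := csInf_le b0 m0
  have := le_csInf ne lb
  have : 2 / 100 / D ≤ 2 / 100 := div_le_self (by norm_num) D1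
  linarith

lemma dia {a : ℝ} (a0 : 0 < a) (a1 : a ≤ 1 / 1000) : 1 ≤ diam (Om a) ∧ diam (Om a) ≤ 3 := by
  refine ⟨le_trans (le_of_eq ?_) (dist_le_diam_of_mem (Om_bd a0 a1) (x := !₂[1 / 2, 0, 0])
    (y := !₂[-(1 / 2), 0, 0]) ?_ ?_), diam_le_of_forall_dist_le (by norm_num) fun x hx y hy => by
      rw [dist_eq_norm]; exact Om_d a1 x hx y hy⟩
  · rw [EuclideanSpace.dist_eq, Fin.sum_univ_three]
    simp [Real.dist_eq]
    norm_num
  · simp [Om, a0]; norm_num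
  · simp [Om, a0]; norm_num

end Pool.Agent.H.MP_d01728_an
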